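import Pool.Agent.Helper80.HG.St
import Pool.Agent.Helper65.AH.Final

/-!
Project HG (MP_1bacb5_al): assembly.
-/

set_option autoImplicit false

namespace Pool.Agent.Helper80.HG

open Filter Topology Asymptotics Pool.Agent.Helper58.RK
open scoped commutatorElement

/-- all module statements -/
structure AllSt : Prop where
  hHB : StHB
  hRB : StRB
  hSB : StSB
  hLN : StLN
  hDP : StDP
  hCM : StCM
  hWN : StWN
  hPC : StPC
  hSQ : StSQ
  hXP : StXP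
  hKN : StKN
  hNV : StNV
  hNM : StNM
  hLA : StLA
  hJP : StJP
  hCO : StCO
  hCD : StCD
  hCE : StCE
  hLC : StLC
  hLB : StLB
  hSC : StSC
  hOA : StOA
  hQT : StQT

theorem dsp_one_trivial {H : Set (ℝ → ℝ)} {Γ : Type} [Group Γ] {θ : Γ → ℝ → ℝ} (hθ : RB H θ) :
    Tr θ 1 := hθ.one

theorem not_tr {Γ : Type} [Group Γ] {θ : Γ → ℝ → ℝ}
    (hF : Fai θ) {g : Γ} (hg : g ≠ 1) : ¬ Tr θ g := fun h => hg (hF g h)

/-- a displacement which is `o` of itself is trivial -/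
theorem tr_of_little {Γ : Type} {θ : Γ → ℝ → ℝ} {g : Γ} (h : dsp θ g =o[atTop] dsp θ g) :
    Tr θ g := by
  have h2 : ¬ ∃ᶠ x in atTop, dsp θ g x ≠ 0 := fun hh => (Asymptotics.isLittleO_irrefl hh) h
  rw [not_frequently] at h2
  filter_upwards [h2] with x hx
  have hx' : dsp θ g x = 0 := not_not.1 hx
  have : θ g x - x = 0 := hx'
  linarith

/-- small faithful actions: the commutator subgroup is abelian -/
theorem mt (A : AllSt) (H : Set (ℝ → ℝ)) (hB : Bas H) (Γ : Type) [Group Γ] (θ : Γ → ℝ → ℝ) (r : ℕ)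
    (hS : SB H θ) (hF : Fai θ) (hr : SRank Γ r) :
    ∀ u ∈ commutator Γ, ∀ v ∈ commutator Γ, u * v = v * u := by
  have hNV := A.hNV A.hLN A.hDP A.hCM A.hWN A.hPC A.hSQ A.hXP A.hKN H hB Γ θ r hS hr
  have hNM := A.hNM A.hPC H hB Γ θ hS hNV
  have hLA := A.hLA H hB Γ θ hS hNM
  intro u hu v hv
  by_contra hne
  have hw1 : ⁅u, v⁆ ≠ 1 := fun h => hne (commutatorElement_eq_one_iff_mul_comm.1 h)
  have hwC : ⁅u, v⁆ ∈ commutator Γ :=
    Subgroup.commutator_mem_commutator (Subgroup.mem_top u) (Subgroup.mem_top v)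
  obtain ⟨z, hz, hz1, hzc⟩ := A.hJP H hB Γ θ r hS hF hr hNM hLA ⟨_, hwC, hw1⟩
  have hzT := not_tr hF hz1
  have h1 := A.hCD A.hCO H hB Γ θ hS u z hzT (hzc u hu)
  have h2 := A.hCD A.hCO H hB Γ θ hS v z hzT (hzc v hv)
  have h3 := A.hCE A.hLN A.hDP A.hCM H hB Γ θ hS u v z hzT h1 h2
  have h4 := A.hCD A.hCO H hB Γ θ hS z ⁅u, v⁆ (not_tr hF hw1) (hzc _ hwC).symm
  exact hzT (tr_of_little (h4.trans_isLittleO h3))

/-- the commutator subgroup of a subgroup -/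
theorem mem_comm_sub {Γ : Type} [Group Γ] (K : Subgroup Γ) (x : Γ) (hx : x ∈ ⁅K, K⁆) :
    ∃ y : K, y ∈ commutator K ∧ (y : Γ) = x := by
  have h1 : (commutator K).map K.subtype = ⁅K, K⁆ := by
    rw [commutator_def, Subgroup.map_commutator, ← MonoidHom.range_eq_map, Subgroup.range_subtype]
  rw [← h1] at hx
  obtain ⟨y, hy, hyx⟩ := hx
  exact ⟨y, hy, hyx⟩

/-- faithful actions -/
theorem faithful (A : AllSt) (H : Set (ℝ → ℝ)) (hB : Bas H) (Γ : Type) [Group Γ] (θ : Γ → ℝ → ℝ)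
    (r : ℕ) (hθ : RB H θ) (hF : Fai θ) (hr : SRank Γ r) :
    ∀ x ∈ commutator Γ, ∀ y ∈ commutator Γ, x * y = y * x := by
  obtain ⟨Gn, hmono, hcomm, hconj, hlev⟩ := A.hLB A.hLC H hB Γ θ hθ
  -- the small actions
  have hSn : ∀ n, SB H (fun g : Gn n => lv θ n (g : Γ)) := by
    intro n
    exact A.hSB H hB _ _ (A.hRB H hB _ _ (hlev n).1) (hlev n).2.1
  have hFn : ∀ n, Fai (fun g : Gn n => lv θ n (g : Γ)) := by
    intro n g hg
    exact Subtype.ext (hF _ ((hlev n).2.2 g hg))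
  have hrn : ∀ n, SRank (Gn n) r := fun n => hr.pull (Gn n).subtype (Gn n).subtype_injective
  have hab : ∀ n, ∀ a ∈ ⁅Gn n, Gn n⁆, ∀ b ∈ ⁅Gn n, Gn n⁆, a * b = b * a := by
    intro n a ha b hb
    obtain ⟨a', ha', rfl⟩ := mem_comm_sub _ _ ha
    obtain ⟨b', hb', rfl⟩ := mem_comm_sub _ _ hb
    have := mt A H hB _ _ r (hSn n) (hFn n) (hrn n) a' ha' b' hb'
    exact congrArg Subtype.val this
  -- the union of the commutator subgroups
  have hdir : Directed (· ≤ ·) (fun n => ⁅Gn n, Gn n⁆) := by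
    intro i j
    exact ⟨max i j, Subgroup.commutator_mono (hmono (le_max_left i j)) (hmono (le_max_left i j)),
      Subgroup.commutator_mono (hmono (le_max_right i j)) (hmono (le_max_right i j))⟩
  have hdirG : Directed (· ≤ ·) Gn := by
    intro i j
    exact ⟨max i j, hmono (le_max_left i j), hmono (le_max_right i j)⟩
  let K : Subgroup Γ := ⨆ n, ⁅Gn n, Gn n⁆
  have hK : ∀ x, x ∈ K ↔ ∃ n, x ∈ ⁅Gn n, Gn n⁆ := fun x => Subgroup.mem_iSup_of_directed hdir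
  have hKab : ∀ a ∈ K, ∀ b ∈ K, a * b = b * a := by
    intro a ha b hb
    obtain ⟨i, hi⟩ := (hK a).1 ha
    obtain ⟨j, hj⟩ := (hK b).1 hb
    obtain ⟨m, hm1, hm2⟩ := hdir i j
    exact hab m a (hm1 hi) b (hm2 hj)
  have hKn : K.Normal := by
    constructor
    intro a ha h
    obtain ⟨n, hn⟩ := (hK a).1 ha
    obtain ⟨m, hm⟩ := hconj h n
    refine (hK _).2 ⟨m, ?_⟩
    have h1 : (⁅Gn n, Gn n⁆).map (MulAut.conj h).toMonoidHom ≤ ⁅Gn m, Gn m⁆ := by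
      rw [Subgroup.map_commutator]
      have h2 : (Gn n).map (MulAut.conj h).toMonoidHom ≤ Gn m := by
        rintro _ ⟨g, hg, rfl⟩
        exact hm g hg
      exact Subgroup.commutator_mono h2 h2
    exact h1 ⟨a, hn, rfl⟩
  have hcomG : ∀ x ∈ commutator Γ, ∃ n, x ∈ Gn n := by
    have h1 : commutator Γ ≤ ⨆ n, Gn n := by
      rw [commutator_def, Subgroup.commutator_le]
      intro a _ b _
      obtain ⟨n, hn⟩ := hcomm a b
      exact Subgroup.mem_iSup_of_mem n hn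
    intro x hx
    exact (Subgroup.mem_iSup_of_directed hdirG).1 (h1 hx)
  have hcen := A.hOA A.hCO A.hSC H hB Γ θ hθ hF K hKn hKab
  intro x hx y hy
  by_contra hne
  have hw1 : ⁅x, y⁆ ≠ 1 := fun h => hne (commutatorElement_eq_one_iff_mul_comm.1 h)
  obtain ⟨n, hxn, hyn⟩ : ∃ n, x ∈ Gn n ∧ y ∈ Gn n := by
    obtain ⟨i, hi⟩ := hcomG x hx
    obtain ⟨j, hj⟩ := hcomG y hy
    exact ⟨max i j, hmono (le_max_left i j) hi, hmono (le_max_right i j) hj⟩
  have hwK : ⁅x, y⁆ ∈ K := (hK _).2 ⟨n, Subgroup.commutator_mem_commutator hxn hyn⟩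
  let x' : Gn n := ⟨x, hxn⟩
  let y' : Gn n := ⟨y, hyn⟩
  have hw' : ((⁅x', y'⁆ : Gn n) : Γ) = ⁅x, y⁆ := rfl
  have hwT : ¬ Tr (fun g : Gn n => lv θ n (g : Γ)) ⁅x', y'⁆ := by
    intro h
    have := hFn n _ h
    apply hw1
    rw [← hw', this]
    rfl
  have h1 := A.hCD A.hCO H hB _ _ (hSn n) x' ⁅x', y'⁆ hwT
    (Subtype.ext (hcen x hx _ hwK))
  have h2 := A.hCD A.hCO H hB _ _ (hSn n) y' ⁅x', y'⁆ hwT
    (Subtype.ext (hcen y hy _ hwK))
  have h3 := A.hCE A.hLN A.hDP A.hCM H hB _ _ (hSn n) x' y' ⁅x', y'⁆ hwT h1 h2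
  exact hwT (tr_of_little h3)

/-- the germ theorem -/
theorem germs (A : AllSt) (H : Set (ℝ → ℝ)) (hH : HF H) (Γ : Type) [Group Γ] (θ : Γ → ℝ → ℝ)
    (r : ℕ) (hθ : Rep H θ) (hr : SRank Γ r) : ∀ g ∈ derivedSeries Γ 2, Tr θ g := by
  have hB := A.hHB H hH
  obtain ⟨Γ₁, _, π, θ₁, hθ₁, hF₁, hr₁, hker⟩ := A.hQT H hB Γ θ r (A.hRB H hB Γ θ hθ) hr
  have hab := faithful A H hB Γ₁ θ₁ r (A.hRB H hB Γ₁ θ₁ hθ₁) hF₁ hr₁
  intro g hg
  apply hker
  have h1 : derivedSeries Γ 2 ≤ π.ker := by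
    change ⁅derivedSeries Γ 1, derivedSeries Γ 1⁆ ≤ _
    rw [Subgroup.commutator_le]
    intro a ha b hb
    have h2 : ∀ c ∈ derivedSeries Γ 1, π c ∈ commutator Γ₁ := by
      intro c hc
      have h3 : (derivedSeries Γ 1).map π ≤ derivedSeries Γ₁ 1 := map_derivedSeries_le_derivedSeries π 1
      have h4 := h3 ⟨c, hc, rfl⟩
      rwa [derivedSeries_one] at h4
    rw [MonoidHom.mem_ker, map_commutatorElement, commutatorElement_eq_one_iff_mul_comm]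
    exact hab _ (h2 a ha) _ (h2 b hb)
  exact MonoidHom.mem_ker.1 (h1 hg)

end Pool.Agent.Helper80.HG
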