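import Pool.Agent.Helper80.HG.StL

/-!
Project HG (MP_1bacb5_al), part L: assembly, the logarithmico-exponential functions form a levelled Hardy field.
-/

set_option autoImplicit false

namespace Pool.Agent.Helper80.HG

open Filter Topology

/-- all module statements of part L -/
structure AllL : Prop where
  hHL : StHL
  hFR : StFR
  hEA : StEA
  hEB : StEB
  hZN : StZN
  hGD : StGD
  hTW : StTW
  hAL : StAL
  hAD : StAD
  hIC : StIC
  hCH : StCH
  hRO : StRO
  hLV : StLV

theorem LE.mem {M : Set (ℝ → ℝ)} (hM : HM M) {f : ℝ → ℝ} (hf : LE f) : f ∈ M := by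
  induction hf with
  | const c => exact hM.const c
  | id => exact hM.id
  | add _ _ h1 h2 => exact hM.add _ h1 _ h2
  | mul _ _ h1 h2 => exact hM.mul _ h1 _ h2
  | inv _ h1 => exact hM.inv _ h1
  | exp _ h1 => exact hM.exp _ h1
  | log _ h1 => exact hM.log _ h1
  | congr _ h h1 => exact hM.congr _ h1 _ h

theorem LE.sgn {M : Set (ℝ → ℝ)} (hM : HM M) {f : ℝ → ℝ} (hf : LE f) :
    (∀ᶠ x in atTop, f x = 0) ∨ ∀ᶠ x in atTop, f x ≠ 0 := by
  rcases hM.sign f (hf.mem hM) with h | h | h
  · exact Or.inl h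
  · exact Or.inr (h.mono fun x hx => hx.ne')
  · exact Or.inr (h.mono fun x hx => hx.ne)

/-- derivatives of eventually equal functions -/
theorem deriv_congr {f g f' : ℝ → ℝ} (h : ∀ᶠ x in atTop, f x = g x)
    (hf : ∀ᶠ x in atTop, HasDerivAt f (f' x) x) : ∀ᶠ x in atTop, HasDerivAt g (f' x) x := by
  obtain ⟨a, ha⟩ := eventually_atTop.1 h
  filter_upwards [hf, eventually_gt_atTop a] with x hx hxa
  refine hx.congr_of_eventuallyEq ?_
  filter_upwards [lt_mem_nhds hxa] with y hy
  exact (ha y hy.le).symm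

theorem LE.der {M : Set (ℝ → ℝ)} (hM : HM M) {f : ℝ → ℝ} (hf : LE f) :
    ∃ f', LE f' ∧ ∀ᶠ x in atTop, HasDerivAt f (f' x) x := by
  induction hf with
  | const c => exact ⟨fun _ => 0, LE.const 0, Eventually.of_forall fun x => hasDerivAt_const x c⟩
  | id => exact ⟨fun _ => 1, LE.const 1, Eventually.of_forall fun x => hasDerivAt_id x⟩
  | add _ _ h1 h2 =>
    obtain ⟨a, ha, ha'⟩ := h1
    obtain ⟨b, hb, hb'⟩ := h2
    refine ⟨_, ha.add hb, ?_⟩
    filter_upwards [ha', hb'] with x h3 h4
    exact h3.add h4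
  | mul hf hg h1 h2 =>
    obtain ⟨a, ha, ha'⟩ := h1
    obtain ⟨b, hb, hb'⟩ := h2
    refine ⟨_, (ha.mul hg).add (hf.mul hb), ?_⟩
    filter_upwards [ha', hb'] with x h3 h4
    exact h3.mul h4
  | @inv f hf h1 =>
    rcases hf.sgn hM with h0 | h0
    · refine ⟨fun _ => 0, LE.const 0, ?_⟩
      refine deriv_congr (f := fun _ => 0) ?_ (Eventually.of_forall fun x => hasDerivAt_const x 0)
      filter_upwards [h0] with x hx
      rw [hx, inv_zero]
    · obtain ⟨a, ha, ha'⟩ := h1
      refine ⟨_, (((LE.const (-1)).mul ha).mul (hf.mul hf).inv), ?_⟩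
      filter_upwards [ha', h0] with x h3 h4
      have := h3.fun_inv h4
      have h5 : -1 * a x * (f x * f x)⁻¹ = -a x / f x ^ 2 := by
        rw [div_eq_mul_inv]
        ring
      rw [h5]
      exact this
  | exp hf h1 =>
    obtain ⟨a, ha, ha'⟩ := h1
    refine ⟨_, hf.exp.mul ha, ?_⟩
    filter_upwards [ha'] with x h3
    exact h3.exp
  | @log f hf h1 =>
    rcases hf.sgn hM with h0 | h0
    · refine ⟨fun _ => 0, LE.const 0, ?_⟩
      refine deriv_congr (f := fun _ => 0) ?_ (Eventually.of_forall fun x => hasDerivAt_const x 0)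
      filter_upwards [h0] with x hx
      rw [hx, Real.log_zero]
    · obtain ⟨a, ha, ha'⟩ := h1
      refine ⟨_, ha.mul hf.inv, ?_⟩
      filter_upwards [ha', h0] with x h3 h4
      have := h3.log h4
      rw [div_eq_mul_inv] at this
      exact this
  | congr _ h h1 =>
    obtain ⟨a, ha, ha'⟩ := h1
    exact ⟨a, ha, deriv_congr h ha'⟩

theorem LE.cmp {f g : ℝ → ℝ} (hf : LE f) (hg : LE g) (ht : Tendsto g atTop atTop) :
    LE (fun x => f (g x)) := by
  induction hf with
  | const c => exact LE.const c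
  | id => exact hg
  | add _ _ h1 h2 => exact h1.add h2
  | mul _ _ h1 h2 => exact h1.mul h2
  | inv _ h1 => exact h1.inv
  | exp _ h1 => exact h1.exp
  | log _ h1 => exact h1.log
  | congr _ h h1 => exact h1.congr (ht.eventually h)

theorem le_hf (A : AllL) : HF {f | LE f} := by
  obtain ⟨M, hM⟩ := A.hZN A.hFR A.hEA A.hEB
  exact
    { congr := fun f hf g h => hf.congr h
      const := fun c => LE.const c
      id := LE.id
      add := fun f hf g hg => hf.add hg
      mul := fun f hf g hg => hf.mul hg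
      inv := fun f hf => hf.inv
      sign := fun f hf => hM.sign f (hf.mem hM)
      deriv := fun f hf => hf.der hM
      comp := fun f hf g hg ht => hf.cmp hg ht
      exp := LE.id.exp
      log := LE.id.log
      lev := by
        intro f hf ht
        obtain ⟨S, hSM, hid, hSd, hfS⟩ := A.hTW A.hGD M hM f hf
        obtain ⟨hK, hKM⟩ := A.hGD M hM (S : Set (ℝ → ℝ)) hSM hSd
        exact A.hLV A.hHL A.hRO M hM {f | Gn (S : Set (ℝ → ℝ)) f} hKM hK (Gn.mem hid) S.card
          (fun g hg => A.hCH A.hAL A.hAD A.hIC M hM.toHK S hSM g hg) f hfS ht }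

end Pool.Agent.Helper80.HG
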