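import Pool.Agent.Helper58.RK.Jumps

/-!
Project HG (MP_1bacb5_al): groups of finite special rank of germs in a levelled Hardy field, definitions.

`H : Set (ℝ → ℝ)` is a class of functions whose germs at `+∞` form a Hardy field closed under composition (`HF`).
A group `Γ` acts by germs at `+∞` (`Rep`): `θ g ∈ H` tends to `+∞`, and `θ (g * h) = θ g ∘ θ h` near `+∞`.
-/

set_option autoImplicit false

namespace Pool.Agent.Helper80.HG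

open Filter Topology Asymptotics

/-- `H` is a levelled Hardy field closed under composition which contains `exp` and `log` (membership depends only on the
germ at `+∞`).  The field operations are pointwise (`0⁻¹ = 0`). -/
structure HF (H : Set (ℝ → ℝ)) : Prop where
  congr : ∀ f ∈ H, ∀ g : ℝ → ℝ, (∀ᶠ x in atTop, f x = g x) → g ∈ H
  const : ∀ c : ℝ, (fun _ => c) ∈ H
  id : (fun x => x) ∈ H
  add : ∀ f ∈ H, ∀ g ∈ H, (fun x => f x + g x) ∈ H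
  mul : ∀ f ∈ H, ∀ g ∈ H, (fun x => f x * g x) ∈ H
  inv : ∀ f ∈ H, (fun x => (f x)⁻¹) ∈ H
  sign : ∀ f ∈ H, (∀ᶠ x in atTop, f x = 0) ∨ (∀ᶠ x in atTop, 0 < f x) ∨ ∀ᶠ x in atTop, f x < 0
  deriv : ∀ f ∈ H, ∃ f' ∈ H, ∀ᶠ x in atTop, HasDerivAt f (f' x) x
  comp : ∀ f ∈ H, ∀ g ∈ H, Tendsto g atTop atTop → (fun x => f (g x)) ∈ H
  exp : Real.exp ∈ H
  log : Real.log ∈ H
  lev : ∀ f ∈ H, Tendsto f atTop atTop → ∃ m n : ℕ,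
    Tendsto (fun x => Real.log^[m] (f (Real.exp^[n] x)) - x) atTop (𝓝 0)

/-- `f` has level `m - n`, seen at height `n` -/
def Lvl (f : ℝ → ℝ) (m n : ℕ) : Prop :=
  Tendsto (fun x => Real.log^[m] (f (Real.exp^[n] x)) - x) atTop (𝓝 0)

/-- `Γ` acts by germs at `+∞` of functions of `H` -/
structure Rep (H : Set (ℝ → ℝ)) {Γ : Type} [Group Γ] (θ : Γ → ℝ → ℝ) : Prop where
  mem : ∀ g, θ g ∈ H
  top : ∀ g, Tendsto (θ g) atTop atTop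
  one : ∀ᶠ x in atTop, θ 1 x = x
  mul : ∀ g h, ∀ᶠ x in atTop, θ (g * h) x = θ g (θ h x)

/-- the displacement -/
def dsp {Γ : Type} (θ : Γ → ℝ → ℝ) (g : Γ) : ℝ → ℝ := fun x => θ g x - x

/-- all displacements tend to zero -/
def Sml {Γ : Type} (θ : Γ → ℝ → ℝ) : Prop := ∀ g, Tendsto (dsp θ g) atTop (𝓝 0)

/-- trivial germ -/
def Tr {Γ : Type} (θ : Γ → ℝ → ℝ) (g : Γ) : Prop := ∀ᶠ x in atTop, θ g x = x

/-- only the identity has a trivial germ -/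
def Fai {Γ : Type} [Group Γ] (θ : Γ → ℝ → ℝ) : Prop := ∀ g, Tr θ g → g = 1

/-- positive germ -/
def Pos {Γ : Type} (θ : Γ → ℝ → ℝ) (g : Γ) : Prop := ∀ᶠ x in atTop, x < θ g x

/-- the displacement of `g` is `exp (-L)`, `L ∈ H` tends to `+∞` -/
def Ps (H : Set (ℝ → ℝ)) {Γ : Type} (θ : Γ → ℝ → ℝ) (g : Γ) (L : ℝ → ℝ) : Prop :=
  L ∈ H ∧ Tendsto L atTop atTop ∧ ∀ᶠ x in atTop, dsp θ g x = Real.exp (-L x)

/-- the action seen at height `n`: conjugation by `exp^[n]` -/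
noncomputable def lv {Γ : Type} (θ : Γ → ℝ → ℝ) (n : ℕ) (g : Γ) : ℝ → ℝ :=
  fun x => Real.log^[n] (θ g (Real.exp^[n] x))

/-- consequences of `HF` (module HB) -/
structure Bas (H : Set (ℝ → ℝ)) : Prop extends HF H where
  sub : ∀ f ∈ H, ∀ g ∈ H, (fun x => f x - g x) ∈ H
  neg : ∀ f ∈ H, (fun x => -f x) ∈ H
  div : ∀ f ∈ H, ∀ g ∈ H, (fun x => f x / g x) ∈ H
  smul : ∀ (c : ℝ), ∀ f ∈ H, (fun x => c * f x) ∈ H
  dmem : ∀ f ∈ H, ∀ f' : ℝ → ℝ, (∀ᶠ x in atTop, HasDerivAt f (f' x) x) → f' ∈ H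
  lim : ∀ f ∈ H, (∃ c : ℝ, Tendsto f atTop (𝓝 c)) ∨ Tendsto f atTop atTop ∨ Tendsto f atTop atBot
  dlim : ∀ f ∈ H, ∀ (c : ℝ) (f' : ℝ → ℝ), Tendsto f atTop (𝓝 c) → (∀ᶠ x in atTop, HasDerivAt f (f' x) x) →
    Tendsto f' atTop (𝓝 0)
  dpos : ∀ f ∈ H, ∀ f' : ℝ → ℝ, Tendsto f atTop atTop → (∀ᶠ x in atTop, HasDerivAt f (f' x) x) →
    ∀ᶠ x in atTop, 0 < f' x
  mono : ∀ f ∈ H, Tendsto f atTop atTop → ∃ M, StrictMonoOn f (Set.Ici M)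
  cont : ∀ f ∈ H, ∃ M, ContinuousOn f (Set.Ici M)
  nlog : ∀ f ∈ H, (∀ᶠ x in atTop, 0 < f x) → Tendsto f atTop (𝓝 0) →
    (fun x => -Real.log (f x)) ∈ H ∧ Tendsto (fun x => -Real.log (f x)) atTop atTop
  eneg : ∀ f ∈ H, Tendsto f atTop atTop → (fun x => Real.exp (-f x)) ∈ H ∧
    Tendsto (fun x => Real.exp (-f x)) atTop (𝓝 0)

/-- consequences of `Rep` (module RB) -/
structure RB (H : Set (ℝ → ℝ)) {Γ : Type} [Group Γ] (θ : Γ → ℝ → ℝ) : Prop extends Rep H θ where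
  inv : ∀ g, ∀ᶠ x in atTop, θ g (θ g⁻¹ x) = x
  trans : ∀ (g : Γ) (P : ℝ → Prop), (∀ᶠ z in atTop, P (θ g z)) → ∀ᶠ w in atTop, P w
  mono : ∀ g, ∃ M, StrictMonoOn (θ g) (Set.Ici M)
  cont : ∀ g, ∃ M, ContinuousOn (θ g) (Set.Ici M)
  dmem : ∀ g, dsp θ g ∈ H
  tri : ∀ g, Tr θ g ∨ Pos θ g ∨ Pos θ g⁻¹
  npos : ∀ g, Pos θ g → ¬ Tr θ g ∧ ¬ Pos θ g⁻¹
  pmul : ∀ g h, Pos θ g → Pos θ h → Pos θ (g * h)
  pconj : ∀ g h, Pos θ h → Pos θ (g * h * g⁻¹)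
  pow : ∀ g, Pos θ g → ∀ n : ℕ, 1 ≤ n → ∀ᶠ x in atTop, θ g x ≤ θ (g ^ n) x
  tmul : ∀ g h, Tr θ g → Tr θ h → Tr θ (g * h)
  tinv : ∀ g, Tr θ g → Tr θ g⁻¹
  tconj : ∀ g h, Tr θ h → Tr θ (g * h * g⁻¹)

/-- consequences of smallness (module SB) -/
structure SB (H : Set (ℝ → ℝ)) {Γ : Type} [Group Γ] (θ : Γ → ℝ → ℝ) : Prop extends RB H θ where
  sml : Sml θ
  ps : ∀ g, Pos θ g → ∃ L, Ps H θ g L
  psu : ∀ g L L', Ps H θ g L → Ps H θ g L' → ∀ᶠ x in atTop, L x = L' x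
  add : ∀ g h, (fun x => dsp θ (g * h) x - dsp θ g x - dsp θ h x) =o[atTop] dsp θ h
  invd : ∀ g, (fun x => dsp θ g⁻¹ x + dsp θ g x) =o[atTop] dsp θ g
  big : ∀ F : ℝ → ℝ, ∃ S : Subgroup Γ, ∀ g, g ∈ S ↔ dsp θ g =O[atTop] F
  lit : ∀ F : ℝ → ℝ, ∃ S : Subgroup Γ, ∀ g, g ∈ S ↔ dsp θ g =o[atTop] F
  conj : ∀ g x, (fun z => dsp θ (g * x * g⁻¹) (θ g z) - dsp θ x z) =o[atTop] dsp θ x

end Pool.Agent.Helper80.HG
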