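import Pool.Agent.Helper80.HG.Defs

/-!
Project HG (MP_1bacb5_al), part L: the logarithmico-exponential functions form a levelled Hardy field; definitions.
-/

set_option autoImplicit false

namespace Pool.Agent.Helper80.HG

open Filter Topology

/-- a Hardy field (germs at `+∞`) which contains the real constants -/
structure HK (K : Set (ℝ → ℝ)) : Prop where
  congr : ∀ f ∈ K, ∀ g : ℝ → ℝ, (∀ᶠ x in atTop, f x = g x) → g ∈ K
  const : ∀ c : ℝ, (fun _ => c) ∈ K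
  add : ∀ f ∈ K, ∀ g ∈ K, (fun x => f x + g x) ∈ K
  mul : ∀ f ∈ K, ∀ g ∈ K, (fun x => f x * g x) ∈ K
  inv : ∀ f ∈ K, (fun x => (f x)⁻¹) ∈ K
  sign : ∀ f ∈ K, (∀ᶠ x in atTop, f x = 0) ∨ (∀ᶠ x in atTop, 0 < f x) ∨ ∀ᶠ x in atTop, f x < 0
  deriv : ∀ f ∈ K, ∃ f' ∈ K, ∀ᶠ x in atTop, HasDerivAt f (f' x) x

/-- a Hardy field which contains `x` and is closed under `exp` and `log` -/
structure HM (M : Set (ℝ → ℝ)) : Prop extends HK M where
  id : (fun x => x) ∈ M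
  exp : ∀ f ∈ M, (fun x => Real.exp (f x)) ∈ M
  log : ∀ f ∈ M, (fun x => Real.log (f x)) ∈ M

/-- Hardy's logarithmico-exponential functions (near `+∞`; `log` is the logarithm of the absolute value,
`0⁻¹ = 0`, `log 0 = 0`) -/
inductive LE : (ℝ → ℝ) → Prop
  | const (c : ℝ) : LE (fun _ => c)
  | id : LE (fun x => x)
  | add {f g : ℝ → ℝ} : LE f → LE g → LE (fun x => f x + g x)
  | mul {f g : ℝ → ℝ} : LE f → LE g → LE (fun x => f x * g x)
  | inv {f : ℝ → ℝ} : LE f → LE (fun x => (f x)⁻¹)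
  | exp {f : ℝ → ℝ} : LE f → LE (fun x => Real.exp (f x))
  | log {f : ℝ → ℝ} : LE f → LE (fun x => Real.log (f x))
  | congr {f g : ℝ → ℝ} : LE f → (∀ᶠ x in atTop, f x = g x) → LE g

/-- the field of germs generated by `S` over the real constants -/
inductive Gn (S : Set (ℝ → ℝ)) : (ℝ → ℝ) → Prop
  | mem {f : ℝ → ℝ} : f ∈ S → Gn S f
  | const (c : ℝ) : Gn S (fun _ => c)
  | add {f g : ℝ → ℝ} : Gn S f → Gn S g → Gn S (fun x => f x + g x)
  | mul {f g : ℝ → ℝ} : Gn S f → Gn S g → Gn S (fun x => f x * g x)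
  | inv {f : ℝ → ℝ} : Gn S f → Gn S (fun x => (f x)⁻¹)
  | congr {f g : ℝ → ℝ} : Gn S f → (∀ᶠ x in atTop, f x = g x) → Gn S g

/-- `g` is larger than all powers of `h` -/
def Big (g h : ℝ → ℝ) : Prop := ∀ k : ℕ, ∀ᶠ x in atTop, h x ^ k ≤ g x

/-- `g` and `h` are bounded by powers of each other -/
def Cmp (g h : ℝ → ℝ) : Prop := ∃ k : ℕ, (∀ᶠ x in atTop, g x ≤ h x ^ k) ∧ ∀ᶠ x in atTop, h x ≤ g x ^ k

end Pool.Agent.Helper80.HG
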