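import Pool.Agent.Helper80.HG.Asm

/-!
Project HG (MP_1bacb5_al): from germs to the interval.
-/

set_option autoImplicit false

namespace Pool.Agent.Helper80.HG

open Filter Topology Pool.Agent.Helper58.RK

/-- the action by right germs at `p`, in the coordinate `1 / (x - p)` -/
noncomputable def rg (G : Subgroup (ℝ ≃o ℝ)) (p : ℝ) (g : G) : ℝ → ℝ :=
  fun u => ((g : ℝ ≃o ℝ) (p + u⁻¹) - p)⁻¹

/-- the action by left germs at `p`, in the coordinate `1 / (p - x)` -/
noncomputable def lg (G : Subgroup (ℝ ≃o ℝ)) (p : ℝ) (g : G) : ℝ → ℝ :=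
  fun u => (p - (g : ℝ ≃o ℝ) (p - u⁻¹))⁻¹

theorem rg_rep (H : Set (ℝ → ℝ)) (G : Subgroup (ℝ ≃o ℝ)) (p : ℝ) (hp : ∀ g ∈ G, g p = p)
    (hm : ∀ g ∈ G, (fun u : ℝ => (g (p + u⁻¹) - p)⁻¹) ∈ H) : Rep H (rg G p) where
  mem g := hm g g.2
  top g := by
    have h1 : Tendsto (fun u : ℝ => (g : ℝ ≃o ℝ) (p + u⁻¹) - p) atTop (𝓝[>] 0) := by
      refine tendsto_nhdsWithin_iff.2 ⟨?_, ?_⟩
      · have h2 : Tendsto (fun u : ℝ => p + u⁻¹) atTop (𝓝 (p + 0)) :=
          tendsto_const_nhds.add tendsto_inv_atTop_zero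
        rw [add_zero] at h2
        have h3 := ((g : ℝ ≃o ℝ).continuous.tendsto p).comp h2
        rw [hp g g.2] at h3
        have h4 := h3.sub (tendsto_const_nhds (x := p))
        rw [sub_self] at h4
        exact h4
      · filter_upwards [eventually_gt_atTop 0] with u hu
        have h5 : p < p + u⁻¹ := by
          have : 0 < u⁻¹ := inv_pos.2 hu
          linarith
        have h6 := (g : ℝ ≃o ℝ).strictMono h5
        rw [hp g g.2] at h6
        exact sub_pos.2 h6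
    exact tendsto_inv_nhdsGT_zero.comp h1
  one := by
    refine Eventually.of_forall fun u => ?_
    change (p + u⁻¹ - p)⁻¹ = u
    rw [add_sub_cancel_left, inv_inv]
  mul g h := by
    refine Eventually.of_forall fun u => ?_
    change ((g : ℝ ≃o ℝ) ((h : ℝ ≃o ℝ) (p + u⁻¹)) - p)⁻¹ =
      ((g : ℝ ≃o ℝ) (p + (((h : ℝ ≃o ℝ) (p + u⁻¹) - p)⁻¹)⁻¹) - p)⁻¹
    rw [inv_inv, add_sub_cancel]

theorem lg_rep (H : Set (ℝ → ℝ)) (G : Subgroup (ℝ ≃o ℝ)) (p : ℝ) (hp : ∀ g ∈ G, g p = p)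
    (hm : ∀ g ∈ G, (fun u : ℝ => (p - g (p - u⁻¹))⁻¹) ∈ H) : Rep H (lg G p) where
  mem g := hm g g.2
  top g := by
    have h1 : Tendsto (fun u : ℝ => p - (g : ℝ ≃o ℝ) (p - u⁻¹)) atTop (𝓝[>] 0) := by
      refine tendsto_nhdsWithin_iff.2 ⟨?_, ?_⟩
      · have h2 : Tendsto (fun u : ℝ => p - u⁻¹) atTop (𝓝 (p - 0)) :=
          tendsto_const_nhds.sub tendsto_inv_atTop_zero
        rw [sub_zero] at h2
        have h3 := ((g : ℝ ≃o ℝ).continuous.tendsto p).comp h2
        rw [hp g g.2] at h3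
        have h4 := (tendsto_const_nhds (x := p)).sub h3
        rw [sub_self] at h4
        exact h4
      · filter_upwards [eventually_gt_atTop 0] with u hu
        have h5 : p - u⁻¹ < p := by
          have : 0 < u⁻¹ := inv_pos.2 hu
          linarith
        have h6 := (g : ℝ ≃o ℝ).strictMono h5
        rw [hp g g.2] at h6
        exact sub_pos.2 h6
    exact tendsto_inv_nhdsGT_zero.comp h1
  one := by
    refine Eventually.of_forall fun u => ?_
    change (p - (p - u⁻¹))⁻¹ = u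
    rw [sub_sub_cancel, inv_inv]
  mul g h := by
    refine Eventually.of_forall fun u => ?_
    change (p - (g : ℝ ≃o ℝ) ((h : ℝ ≃o ℝ) (p - u⁻¹)))⁻¹ =
      (p - (g : ℝ ≃o ℝ) (p - ((p - (h : ℝ ≃o ℝ) (p - u⁻¹))⁻¹)⁻¹))⁻¹
    rw [inv_inv, sub_sub_cancel]

theorem interval (A : AllSt) (hBS : Pool.Agent.Helper65.AH.StBS) (H : Set (ℝ → ℝ)) (hH : HF H)
    (r : ℕ) (G : Subgroup (ℝ ≃o ℝ)) (hr : SRank G r)
    (hsupp : ∀ g ∈ G, ∀ x, x ∉ Set.Icc (0 : ℝ) 1 → g x = x)
    (hP : ∀ p, (∀ g ∈ G, g p = p) → ∀ g ∈ G,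
      (fun u : ℝ => (g (p + u⁻¹) - p)⁻¹) ∈ H ∧ (fun u : ℝ => (p - g (p - u⁻¹))⁻¹) ∈ H) :
    derivedSeries G 2 = ⊥ := by
  rw [eq_bot_iff]
  intro g hg
  rw [Subgroup.mem_bot]
  have key : (g : ℝ ≃o ℝ) = 1 := by
    refine hBS r G hr hsupp g g.2 fun p hp => ?_
    have hR : Tr (rg G p) g :=
      germs A H hH G (rg G p) r (rg_rep H G p hp fun h hh => (hP p hp h hh).1) hr g hg
    have hL : Tr (lg G p) g :=
      germs A H hH G (lg G p) r (lg_rep H G p hp fun h hh => (hP p hp h hh).2) hr g hg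
    have h1 : ∀ᶠ y in 𝓝[>] p, (g : ℝ ≃o ℝ) y = y := by
      have ht : Tendsto (fun y : ℝ => (y - p)⁻¹) (𝓝[>] p) atTop := by
        refine tendsto_inv_nhdsGT_zero.comp (tendsto_nhdsWithin_iff.2 ⟨?_, ?_⟩)
        · have : Tendsto (fun y : ℝ => y - p) (𝓝 p) (𝓝 (p - p)) :=
            (continuous_id.sub continuous_const).tendsto p
          rw [sub_self] at this
          exact this.mono_left nhdsWithin_le_nhds
        · filter_upwards [self_mem_nhdsWithin] with y hy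
          have hy : p < y := hy
          exact sub_pos.2 hy
      filter_upwards [ht.eventually hR] with y hy
      change ((g : ℝ ≃o ℝ) (p + ((y - p)⁻¹)⁻¹) - p)⁻¹ = (y - p)⁻¹ at hy
      rw [inv_inv, add_sub_cancel] at hy
      have := inv_injective hy
      linarith
    have h2 : ∀ᶠ y in 𝓝[<] p, (g : ℝ ≃o ℝ) y = y := by
      have ht : Tendsto (fun y : ℝ => (p - y)⁻¹) (𝓝[<] p) atTop := by
        refine tendsto_inv_nhdsGT_zero.comp (tendsto_nhdsWithin_iff.2 ⟨?_, ?_⟩)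
        · have : Tendsto (fun y : ℝ => p - y) (𝓝 p) (𝓝 (p - p)) :=
            (continuous_const.sub continuous_id).tendsto p
          rw [sub_self] at this
          exact this.mono_left nhdsWithin_le_nhds
        · filter_upwards [self_mem_nhdsWithin] with y hy
          have hy : y < p := hy
          exact sub_pos.2 hy
      filter_upwards [ht.eventually hL] with y hy
      change (p - (g : ℝ ≃o ℝ) (p - ((p - y)⁻¹)⁻¹))⁻¹ = (p - y)⁻¹ at hy
      rw [inv_inv, sub_sub_cancel] at hy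
      have := inv_injective hy
      linarith
    have h3 : ∀ᶠ y in 𝓝[≠] p, (g : ℝ ≃o ℝ) y = y := by
      rw [← nhdsLT_sup_nhdsGT, eventually_sup]
      exact ⟨h2, h1⟩
    rw [eventually_nhdsWithin_iff] at h3
    filter_upwards [h3] with y hy
    by_cases hyp : y = p
    · rw [hyp, hp g g.2]
    · exact hy hyp
  exact Subtype.ext key

end Pool.Agent.Helper80.HG
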