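import Pool.Agent.Helper80.HG.StL

/-!
# Project HG (MP_1bacb5_al) part L, modules GD and CH
-/

set_option autoImplicit false

namespace Pool.Agent.Helper80.HG

open Filter Topology

private theorem gd_congr {f g f' : ℝ → ℝ} (h : ∀ᶠ x in atTop, f x = g x)
    (hf : ∀ᶠ x in atTop, HasDerivAt f (f' x) x) : ∀ᶠ x in atTop, HasDerivAt g (f' x) x := by
  obtain ⟨a, ha⟩ := eventually_atTop.1 h
  filter_upwards [hf, eventually_gt_atTop a] with x hx hxa
  refine hx.congr_of_eventuallyEq ?_
  filter_upwards [lt_mem_nhds hxa] with y hy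
  exact (ha y hy.le).symm

theorem hGD : StGD := by
  intro M hM S hS hd
  have hsub : ∀ f, Gn S f → f ∈ M := by
    intro f hf
    induction hf with
    | mem h => exact hS h
    | const c => exact hM.const c
    | add _ _ h1 h2 => exact hM.add _ h1 _ h2
    | mul _ _ h1 h2 => exact hM.mul _ h1 _ h2
    | inv _ h1 => exact hM.inv _ h1
    | congr _ h h1 => exact hM.congr _ h1 _ h
  have hder : ∀ f, Gn S f → ∃ f', Gn S f' ∧ ∀ᶠ x in atTop, HasDerivAt f (f' x) x := by
    intro f hf
    induction hf with
    | mem h => exact hd _ h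
    | const c => exact ⟨fun _ => 0, Gn.const 0, Eventually.of_forall fun x => hasDerivAt_const x c⟩
    | add _ _ h1 h2 =>
      obtain ⟨a, ha, ha'⟩ := h1
      obtain ⟨b, hb, hb'⟩ := h2
      refine ⟨_, ha.add hb, ?_⟩
      filter_upwards [ha', hb'] with x h3 h4
      exact h3.add h4
    | mul hf hg h1 h2 =>
      obtain ⟨a, ha, ha'⟩ := h1
      obtain ⟨b, hb, hb'⟩ := h2
      refine ⟨_, (ha.mul hg).add (hf.mul hb), ?_⟩
      filter_upwards [ha', hb'] with x h3 h4
      exact h3.mul h4
    | @inv f hf h1 =>
      have hs : (∀ᶠ x in atTop, f x = 0) ∨ ∀ᶠ x in atTop, f x ≠ 0 := by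
        rcases hM.sign f (hsub f hf) with h | h | h
        · exact Or.inl h
        · exact Or.inr (h.mono fun x hx => hx.ne')
        · exact Or.inr (h.mono fun x hx => hx.ne)
      rcases hs with h0 | h0
      · refine ⟨fun _ => 0, Gn.const 0, ?_⟩
        refine gd_congr (f := fun _ => 0) ?_ (Eventually.of_forall fun x => hasDerivAt_const x 0)
        filter_upwards [h0] with x hx
        rw [hx, inv_zero]
      · obtain ⟨a, ha, ha'⟩ := h1
        refine ⟨_, (((Gn.const (-1)).mul ha).mul (hf.mul hf).inv), ?_⟩
        filter_upwards [ha', h0] with x h3 h4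
        have := h3.fun_inv h4
        have h5 : -1 * a x * (f x * f x)⁻¹ = -a x / f x ^ 2 := by
          rw [div_eq_mul_inv]
          ring
        rw [h5]
        exact this
    | congr _ h h1 =>
      obtain ⟨a, ha, ha'⟩ := h1
      exact ⟨a, ha, gd_congr h ha'⟩
  refine ⟨?_, fun f hf => hsub f hf⟩
  exact
    { congr := fun f hf g h => Gn.congr hf h
      const := fun c => Gn.const c
      add := fun f hf g hg => Gn.add hf hg
      mul := fun f hf g hg => Gn.mul hf hg
      inv := fun f hf => Gn.inv hf
      sign := fun f hf => hM.sign f (hsub f hf)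
      deriv := fun f hf => hder f hf }

theorem hCH : StCH := by
  intro hAL hAD hIC M hM S hS g hg hbig
  have hB : ∀ i j : ℕ, i < j → j ≤ S.card → Big (g i) (g j) := by
    intro i j hij
    induction j, hij using Nat.le_induction with
    | base =>
      intro hj
      exact hbig i (by omega)
    | succ j hij ih =>
      intro hj k
      have h1 := ih (by omega) 1
      have h2 := hbig j (by omega) k
      filter_upwards [h1, h2] with x h3 h4
      rw [pow_one] at h3
      exact h4.trans h3
  obtain ⟨P, hP, h0⟩ := hAD hAL M hM S hS (fun i : Fin (S.card + 1) => g i)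
    (fun i => (hg i (by omega)).1)
  have h1 := hIC S.card (fun i : Fin (S.card + 1) => g i) (fun i => (hg i (by omega)).2)
    (fun i j hij => hB i j hij (by omega)) P hP
  obtain ⟨x, h2, h3⟩ := (h0.and h1).exists
  exact h3 h2

end Pool.Agent.Helper80.HG
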