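import Pool.Agent.Helper80.HG.St

/-!
# Project HG (MP_1bacb5_al), module SC: positive endomorphisms of an archimedean ordered group commute
-/

set_option autoImplicit false

namespace Pool.Agent.Helper80.HG

section order

variable {A : Type} [CommGroup A] (P : A → Prop)

/-- an additive real valued function which is positive exactly on `P` -/
private theorem sc_hoelder (h1 : ¬ P 1) (hmul : ∀ a b, P a → P b → P (a * b))
    (htot : ∀ a, a ≠ 1 → P a ∨ P a⁻¹) (harch : ∀ a b, P b → ∃ n : ℕ, P (b ^ n * a⁻¹)) :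
    ∃ φ : A → ℝ, (∀ a b, φ (a * b) = φ a + φ b) ∧ (∀ a, P a ↔ 0 < φ a) ∧
      Function.Injective φ := by
  classical
  let le : Additive A → Additive A → Prop := fun x y => x = y ∨ P (y.toMul * (x.toMul)⁻¹)
  have htr : ∀ x y z : Additive A, le x y → le y z → le x z := by
    rintro x y z (rfl | hxy) (rfl | hyz)
    · exact Or.inl rfl
    · exact Or.inr hyz
    · exact Or.inr hxy
    · right
      have := hmul _ _ hyz hxy
      have h2 : z.toMul * (y.toMul)⁻¹ * (y.toMul * (x.toMul)⁻¹) = z.toMul * (x.toMul)⁻¹ := by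
        group
      rwa [h2] at this
  have hanti : ∀ x y : Additive A, le x y → le y x → x = y := by
    rintro x y (rfl | hxy) (h | hyx)
    · rfl
    · rfl
    · exact h.symm
    · exfalso
      have := hmul _ _ hyx hxy
      have h2 : x.toMul * (y.toMul)⁻¹ * (y.toMul * (x.toMul)⁻¹) = 1 := by
        group
      rw [h2] at this
      exact h1 this
  have htotal : ∀ x y : Additive A, le x y ∨ le y x := by
    intro x y
    by_cases hxy : x = y
    · exact Or.inl (Or.inl hxy)
    · have h2 : y.toMul * (x.toMul)⁻¹ ≠ 1 := by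
        intro h
        apply hxy
        have h3 : y.toMul = x.toMul := by
          rw [← mul_inv_eq_one]
          exact h
        exact (Additive.toMul.injective h3).symm
      rcases htot _ h2 with h | h
      · exact Or.inl (Or.inr h)
      · refine Or.inr (Or.inr ?_)
        rwa [mul_inv_rev, inv_inv] at h
  letI : LinearOrder (Additive A) :=
    { le := le
      le_refl := fun x => Or.inl rfl
      le_trans := htr
      le_antisymm := hanti
      le_total := htotal
      toDecidableLE := Classical.decRel _ }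
  have hle : ∀ x y : Additive A, x ≤ y ↔ x = y ∨ P (y.toMul * (x.toMul)⁻¹) := fun x y => Iff.rfl
  have hlt : ∀ x y : Additive A, x < y ↔ P (y.toMul * (x.toMul)⁻¹) := by
    intro x y
    rw [lt_iff_le_and_ne, hle]
    constructor
    · rintro ⟨h | h, hne⟩
      · exact absurd h hne
      · exact h
    · intro h
      refine ⟨Or.inr h, ?_⟩
      rintro rfl
      rw [mul_inv_cancel] at h
      exact h1 h
  have hR : ∀ x y z : A, y * z * (x * z)⁻¹ = y * x⁻¹ := by
    intro x y z
    rw [← div_eq_mul_inv, mul_div_mul_right_eq_div, div_eq_mul_inv]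
  have hL : ∀ x y z : A, z * y * (z * x)⁻¹ = y * x⁻¹ := by
    intro x y z
    rw [← div_eq_mul_inv, mul_div_mul_left_eq_div, div_eq_mul_inv]
  have : IsOrderedAddMonoid (Additive A) := by
    constructor
    · intro x y hxy z
      rw [hle] at hxy ⊢
      rcases hxy with rfl | h
      · exact Or.inl rfl
      · right
        rw [toMul_add, toMul_add]
        first
          | rwa [hR]
          | rwa [hL]
    · intro x y hxy z
      rw [hle] at hxy ⊢
      rcases hxy with rfl | h
      · exact Or.inl rfl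
      · right
        rw [toMul_add, toMul_add]
        first
          | rwa [hR]
          | rwa [hL]
  have : Archimedean (Additive A) := by
    constructor
    intro x y hy
    rw [hlt] at hy
    have hy' : P y.toMul := by
      have h2 : (0 : Additive A).toMul = 1 := rfl
      rwa [h2, inv_one, mul_one] at hy
    obtain ⟨n, hn⟩ := harch x.toMul _ hy'
    refine ⟨n, ?_⟩
    rw [hle]
    right
    have h2 : (n • y).toMul = y.toMul ^ n := rfl
    rwa [h2]
  obtain ⟨ι, hι⟩ := Archimedean.exists_orderAddMonoidHom_real_injective (Additive A)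
  have hmono : StrictMono ι := (OrderHomClass.monotone ι).strictMono_of_injective hι
  refine ⟨fun a => ι (Additive.ofMul a), ?_, ?_, ?_⟩
  · intro a b
    change ι (Additive.ofMul (a * b)) = _
    rw [ofMul_mul, map_add]
  · intro a
    have h2 : (0 : Additive A) < Additive.ofMul a ↔ P a := by
      rw [hlt]
      have h3 : (0 : Additive A).toMul = 1 := rfl
      rw [h3, inv_one, mul_one]
      rfl
    rw [← h2, ← map_zero ι]
    exact (hmono.lt_iff_lt).symm
  · intro a b hab
    exact Additive.ofMul.injective (hι hab)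

private theorem sc_pow {φ : A → ℝ} (hφ : ∀ a b, φ (a * b) = φ a + φ b) (a : A) (n : ℕ) :
    φ (a ^ n) = n * φ a := by
  have h1 : φ 1 = 0 := by
    have := hφ 1 1
    rw [mul_one] at this
    linarith
  induction n with
  | zero => rw [pow_zero, h1]; simp
  | succ n ih =>
    rw [pow_succ, hφ, ih]
    push_cast
    ring

private theorem sc_inv {φ : A → ℝ} (hφ : ∀ a b, φ (a * b) = φ a + φ b) (a : A) :
    φ a⁻¹ = - φ a := by
  have h1 : φ 1 = 0 := by
    have := hφ 1 1
    rw [mul_one] at this
    linarith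
  have := hφ a a⁻¹
  rw [mul_inv_cancel, h1] at this
  linarith

private theorem sc_ratio {φ : A → ℝ} (hφ : ∀ a b, φ (a * b) = φ a + φ b)
    (hP : ∀ a, P a ↔ 0 < φ a) (α : A →* A) (hα : ∀ a, P a → P (α a)) (a w : A) (ha : P a)
    (hw : P w) : φ a * φ (α w) ≤ φ (α a) * φ w := by
  by_contra hcon
  push Not at hcon
  have ha0 := (hP a).1 ha
  have hw0 := (hP w).1 hw
  have ha1 := (hP _).1 (hα a ha)
  have hw1 := (hP _).1 (hα w hw)
  have h1 : φ (α a) / φ (α w) < φ a / φ w := by
    rw [div_lt_div_iff₀ hw1 hw0]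
    exact hcon
  obtain ⟨q, hq1, hq2⟩ := exists_rat_btwn h1
  have hq0 : (0 : ℝ) < q := lt_trans (div_pos ha1 hw1) hq1
  have hq0' : 0 < q := by exact_mod_cast hq0
  have hnum : 0 < q.num := Rat.num_pos.2 hq0'
  obtain ⟨p, hp⟩ := Int.eq_ofNat_of_zero_le hnum.le
  have hd : (0 : ℝ) < q.den := by exact_mod_cast q.den_pos
  have hqe : (q : ℝ) = p / q.den := by
    have h2 : (q : ℝ) = (q.num : ℝ) / (q.den : ℝ) := Rat.cast_def q
    rw [h2, hp]
    simp
  rw [hqe] at hq1 hq2
  rw [div_lt_div_iff₀ hd hw0] at hq2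
  rw [div_lt_div_iff₀ hw1 hd] at hq1
  have h3 : P (a ^ q.den * (w ^ p)⁻¹) := by
    rw [hP, hφ, sc_inv hφ, sc_pow hφ, sc_pow hφ]
    nlinarith
  have h4 := hα _ h3
  rw [map_mul, map_inv, map_pow, map_pow, hP, hφ, sc_inv hφ, sc_pow hφ, sc_pow hφ] at h4
  nlinarith

private theorem sc_scale {φ : A → ℝ} (hφ : ∀ a b, φ (a * b) = φ a + φ b)
    (hP : ∀ a, P a ↔ 0 < φ a) (hinj : Function.Injective φ) (α : A →* A)
    (hα : ∀ a, P a → P (α a)) : ∃ l : ℝ, ∀ a, φ (α a) = l * φ a := by
  have h1 : φ 1 = 0 := by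
    have := hφ 1 1
    rw [mul_one] at this
    linarith
  by_cases hex : ∃ w, P w
  · obtain ⟨w, hw⟩ := hex
    have hw0 := (hP w).1 hw
    have hpos : ∀ a, P a → φ (α a) = φ (α w) / φ w * φ a := by
      intro a ha
      have h2 := sc_ratio P hφ hP α hα a w ha hw
      have h3 := sc_ratio P hφ hP α hα w a hw ha
      rw [div_mul_eq_mul_div, eq_div_iff hw0.ne']
      linarith
    refine ⟨φ (α w) / φ w, fun a => ?_⟩
    rcases lt_trichotomy (φ a) 0 with h | h | h
    · have h2 : P a⁻¹ := by
        rw [hP, sc_inv hφ]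
        linarith
      have h3 := hpos _ h2
      rw [map_inv, sc_inv hφ, sc_inv hφ] at h3
      linarith
    · have h2 : a = 1 := hinj (by rw [h, h1])
      rw [h2, map_one, h1, mul_zero]
    · exact hpos a ((hP a).2 h)
  · refine ⟨0, fun a => ?_⟩
    have h2 : ∀ b, φ b = 0 := by
      intro b
      rcases lt_trichotomy (φ b) 0 with h | h | h
      · exact absurd ⟨b⁻¹, (hP _).2 (by rw [sc_inv hφ]; linarith)⟩ hex
      · exact h
      · exact absurd ⟨b, (hP _).2 h⟩ hex
    rw [h2, h2, mul_zero]

end order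

theorem hSC : StSC := by
  intro A _ P h1 hmul htot harch α β hα hβ a
  obtain ⟨φ, hφ, hP, hinj⟩ := sc_hoelder P h1 hmul htot harch
  obtain ⟨l, hl⟩ := sc_scale P hφ hP hinj α hα
  obtain ⟨m, hm⟩ := sc_scale P hφ hP hinj β hβ
  apply hinj
  rw [hl, hm, hm, hl]
  ring

end Pool.Agent.Helper80.HG
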