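import Pool.Agent.Helper80.HG.Defs

/-!
# Project HG (MP_1bacb5_al): statements with complete proofs

THEOREM.  Let `H` be a levelled Hardy field closed under composition containing `exp` and `log` (`HF H`; e.g. the germs at `+∞`
of the functions definable in `R_an,exp`).  If a group of finite special rank acts by germs at `+∞` of functions of `H`, then its
second derived subgroup acts trivially; and a group of finite special rank of increasing homeomorphisms of `[0, 1]` whose germs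
on both sides of every common fixed point `p`, in the coordinate `u = 1 / |x - p|`, belong to `H`, is metabelian.

All `o`, `O`, limits and `for large x` refer to `x → +∞` (`atTop`).  `Bas H` (consequences of `HF H`), `RB H θ` (consequences of
`Rep H θ`), `SB H θ` (consequences of smallness) are structures in `Defs.lean`.  `d g` in the proofs stands for `dsp θ g`,
so `θ g z = z + d g z`; `θ (g * h) = θ g ∘ θ h` near `+∞`.  Transport by `θ g` means: a statement proved for all `w = θ g z`, `z` large,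
holds for all large `w` (`RB.trans`, or compose with `θ g⁻¹ → +∞` and use `RB.inv`).
-/

set_option autoImplicit false

namespace Pool.Agent.Helper80.HG

open Filter Topology Asymptotics Pool.Agent.Helper58.RK
open scoped commutatorElement

/-- HB (basic facts on the Hardy field `H`).

PROOF.  `sub`, `neg`, `div`, `smul`: `add`, `mul`, `inv` and constants (`-f = (-1) * f`).  `dmem`: `HF.deriv` gives a derivative in `H`; by
uniqueness of derivatives it agrees near `+∞` with `f'`; `congr`.  `cont`: differentiable on some `[M, ∞)`.  `lim`: let `f' ∈ H` be the derivative;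
`HF.sign f'`.  (0) `f' = 0` on `[a, ∞)`: `f` is constant there.  (+) `f' > 0` on `[a, ∞)`: `f` is strictly increasing on `[a, ∞)` (mean value theorem,
`strictMonoOn_of_deriv_pos`), `F x = f (max x a)` is monotone on the line, `tendsto_of_monotone F`, and `F = f` near `+∞`.  (-) apply (+) to `-f`.
`dlim`: `f' ∈ H` by `dmem`; by `lim` it has a limit in `[-∞, ∞]`; if this is not zero then there are `ε > 0` and `a` with `f' ≥ ε` on `[a, ∞)` or
`f' ≤ -ε` on `[a, ∞)`, so `f x ≥ f a + ε (x - a)` or `≤ f a - ε (x - a)`, which contradicts the finite limit of `f`.  `dpos`: `f' ∈ H`; if `f' = 0` or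
`f' < 0` near `+∞` then `f` is antitone on some `[a, ∞)`, so bounded above there: contradiction; `HF.sign`.  `mono`: from `dpos`.  `nlog`:
`-log f = log (1/f)`, `1/f → +∞`, `HF.comp`.  `eneg`: `exp (-f) = 1 / exp f`, `HF.comp`, `HF.inv`. -/
def StHB : Prop := ∀ H : Set (ℝ → ℝ), HF H → Bas H

/-- RB (basic facts on the action).

PROOF.  `inv`: `mul g g⁻¹` and `one`.  `trans`: if `P (θ g z)` for `z ≥ M`, then for large `w`: `θ g⁻¹ w ≥ M` and `w = θ g (θ g⁻¹ w)`.  `mono`, `cont`: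
`Bas.mono`, `Bas.cont` for `θ g`.  `dmem`: `Bas.sub` and `HF.id`.  `tri`: `HF.sign (dsp θ g)`; zero: `Tr`; positive: `Pos`; negative: for
`w = θ g z`: `θ g⁻¹ w = z > θ g z = w`, so `Pos θ g⁻¹` by `trans`.  `npos`: `Pos` and `Tr` exclude each other (take one large `x`); if `x < θ g x` and
`x < θ g⁻¹ x` for large `x` then `x = θ g (θ g⁻¹ x) > θ g⁻¹ x > x`.  `pmul`: `θ (g h) x = θ g (θ h x) > θ h x > x`.  `pconj`: for `w = θ g z`:
`θ (g h g⁻¹) w = θ (g h) z` (`mul (g h g⁻¹) g`), `= θ g (θ h z) > θ g z = w` as `θ g` is strictly increasing on some `[M, ∞)`.  `pow`: induction,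
`θ (g ^ (n+1)) x = θ g (θ (g ^ n) x) > θ (g ^ n) x ≥ θ g x` (`pow_succ'`).  `tmul`, `tinv`, `tconj`: direct (`trans`). -/
def StRB : Prop :=
  ∀ H : Set (ℝ → ℝ), Bas H → ∀ (Γ : Type) [Group Γ] (θ : Γ → ℝ → ℝ), Rep H θ → RB H θ

/-- SB (basic facts on small actions).

PROOF.  `ps`: `L = -log (d g)`, `Bas.nlog`.  `psu`: `exp` is injective.  `add`: for large `z`: `d (g h) z = θ g (θ h z) - z = d g (θ h z) + d h z`, and by the mean value
theorem (`exists_hasDerivAt_eq_slope` on the interval between `z` and `θ h z`; for `θ h z = z` the difference is zero)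
`|d g (θ h z) - d g z| ≤ ε |d h z|` for large `z`, since the derivative of `d g ∈ H` tends to `0` (`Bas.dlim`, `d g → 0`).  `invd`: by `add g g⁻¹` and
`d (g g⁻¹) = d 1 = 0`: `d g + d g⁻¹ = o(d g⁻¹)`, so `d g⁻¹ = O(d g)` (`IsLittleO.right_isBigO_add` or similar), so
`d g + d g⁻¹ = o(d g)`.  `big`: `S = {g | d g = O(F)}` is a subgroup: `d (g h) = d g + d h + o(d h)`, `d g⁻¹ = -d g + o(d g)`, `d 1 = 0` near `+∞`.
`lit`: the same with `o`.  `conj`: for large `z`, with `y = g x g⁻¹`: `d y (θ g z) = θ (y g) z - θ g z = θ g (θ x z) - θ g z = d x z + (d g (θ x z) - d g z)` (`y g = g x`),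
and the last bracket is `o(d x z)` as in `add`. -/
def StSB : Prop :=
  ∀ H : Set (ℝ → ℝ), Bas H → ∀ (Γ : Type) [Group Γ] (θ : Γ → ℝ → ℝ), RB H θ → Sml θ → SB H θ

/-- LN (local variation of functions of `H`).

PROOF.  `1/Λ ∈ H` tends to `0`, so its derivative tends to `0` (`Bas.dlim`): there is `M` such that `Λ ≥ 1` and `1/Λ` is differentiable with derivative of
absolute value `≤ 1` on `[M, ∞)`.  Let `a = Λ z`, `b = Λ ξ`, `t = |ξ - z|`.  Mean value inequality: `|1/b - 1/a| ≤ t` and `t a ≤ t a² ≤ 1/2`.  `|b - a| = a b |1/b - 1/a| ≤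
a b t`, so `b ≤ a + a b t ≤ a + b/2`, `b ≤ 2a`, so `|b - a| ≤ 2 a² t`. -/
def StLN : Prop :=
  ∀ H : Set (ℝ → ℝ), Bas H → ∀ Λ ∈ H, Tendsto Λ atTop atTop →
    ∃ M : ℝ, ∀ z ξ : ℝ, M ≤ z → M ≤ ξ → |ξ - z| * Λ z ^ 2 ≤ 1 / 2 →
      |Λ ξ - Λ z| ≤ 2 * (|ξ - z| * Λ z ^ 2)

/-- DP (the derivative of a null function is bounded by a power of the function).

PROOF.  If `η = 0` near `+∞` then `η' = 0` there.  If `η < 0` near `+∞` pass to `-η`.  Let `η > 0`, `Λ = -log η ∈ H`, `Λ → +∞` (`Bas.nlog`).  The function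
`exp (-(δ Λ)) ∈ H` tends to `0`, so its derivative `-δ Λ' exp (-δ Λ)` tends to `0`; so for large `x` `|Λ' x| exp (-δ Λ x) ≤ 1`.  `η' = -Λ' η` (`Λ' = -η'/η`), so
`|η'| = |Λ'| η ≤ exp (δ Λ) η = η ^ (1 - δ)`. -/
def StDP : Prop :=
  ∀ H : Set (ℝ → ℝ), Bas H → ∀ η ∈ H, Tendsto η atTop (𝓝 0) → ∀ η' : ℝ → ℝ,
    (∀ᶠ x in atTop, HasDerivAt η (η' x) x) → ∀ δ : ℝ, 0 < δ → δ < 1 →
      ∀ᶠ x in atTop, |η' x| ≤ |η x| ^ (1 - δ)

/-- CM (commutators in small actions).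

PROOF.  Let `C ≥ 1` with `|d x|, |d y| ≤ C exp (-Λ)` near `+∞`.  Let `w` be large, `z = θ ((y x)⁻¹) w` (`z → +∞` as `w → +∞`), so `w = θ (y x) z = θ y (θ x z)` and, as
`⁅x, y⁆ y x = x y`, `θ ⁅x, y⁆ w = θ x (θ y z)`.  So
`d ⁅x, y⁆ w = θ x (θ y z) - θ y (θ x z) = [d x (z + d y z) - d x z] - [d y (z + d x z) - d y z]`.  By the mean value theorem the first bracket is
`(d x)'(ξ) * d y z` with `|ξ - z| ≤ |d y z| ≤ C exp (-Λ z)`; as `C exp (-Λ z) (Λ z)² → 0`, StLN gives `Λ ξ ≥ Λ z - 1` for large `z`; and by StDP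
`|(d x)'(ξ)| ≤ |d x ξ| ^ (1-δ) ≤ (C exp (-Λ ξ)) ^ (1-δ) ≤ (C e exp (-Λ z)) ^ (1-δ)`.  So the first bracket is at most
`C (C e) ^ (1-δ) exp (-(2-δ) Λ z)` in absolute value; the same for the second one.  Finally
`|w - z| ≤ |d x z| + |d y (θ x z)| ≤ C exp (-Λ z) + C exp (-Λ (θ x z)) ≤ C (1 + e) exp (-Λ z)` (StLN again, `|θ x z - z| ≤ C exp (-Λ z)`), so by StLN `Λ w ≤ Λ z + 1`, and
`exp (-(2-δ) Λ z) ≤ e² exp (-(2-δ) Λ w)`. -/
def StCM : Prop :=
  StLN → StDP → ∀ H : Set (ℝ → ℝ), Bas H → ∀ (Γ : Type) [Group Γ] (θ : Γ → ℝ → ℝ), SB H θ →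
    ∀ Λ ∈ H, Tendsto Λ atTop atTop → ∀ δ : ℝ, 0 < δ → δ < 1 → ∀ x y : Γ,
      (dsp θ x =O[atTop] fun z => Real.exp (-Λ z)) → (dsp θ y =O[atTop] fun z => Real.exp (-Λ z)) →
      dsp θ ⁅x, y⁆ =O[atTop] fun z => Real.exp (-((2 - δ) * Λ z))

/-- WN (window lemma: `r + 1` elements of comparable depths contradict rank `r`).

PROOF.  `rank_lemma` (Helper58.RK.Central) for `Γ`, `a`, and `E i` = the subgroup `{g | d g = o(exp (-L i))}` (`SB.lit`).  `hcomm`: the subgroup `B = {g | d g = O(exp (-Λ))}`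
(`SB.big`) contains all `a i`, `i ≤ r` (`d (a i) = exp (-L i) ≤ e^C exp (-Λ)`), so it contains the closure; StCM gives `d ⁅x, y⁆ = O(exp (-(2-δ) Λ)) = o(exp (-L i))` as
`(2-δ) Λ - L i → +∞`.  (`hCM` is the conclusion of StCM.)  `htf`: `a i` is positive; `d (a i ^ n) ≥ d (a i) = exp (-L i) > 0` near `+∞` (`RB.pow`), so `d (a i ^ n)` is not `o(exp (-L i))`.  `hlow`: for `i < j`
`d (a j) = exp (-L j) = o(exp (-L i))`. -/
def StWN : Prop :=
  StLN → StDP → StCM → ∀ H : Set (ℝ → ℝ), Bas H → ∀ (Γ : Type) [Group Γ] (θ : Γ → ℝ → ℝ) (r : ℕ), SB H θ → SRank Γ r →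
    ∀ (a : ℕ → Γ) (L : ℕ → ℝ → ℝ) (Λ : ℝ → ℝ) (δ C : ℝ), 0 < δ → δ < 1 → Λ ∈ H → Tendsto Λ atTop atTop →
      (∀ i ≤ r, Ps H θ (a i) (L i)) →
      (∀ i j, i < j → j ≤ r → Tendsto (fun x => L j x - L i x) atTop atTop) →
      (∀ i ≤ r, ∀ᶠ x in atTop, Λ x ≤ L i x + C) →
      (∀ i ≤ r, Tendsto (fun x => (2 - δ) * Λ x - L i x) atTop atTop) → False

/-- PC (conjugates of positive elements).

PROOF.  `Ps H θ x L` implies `Pos θ x`, so `g x g⁻¹` is positive (`RB.pconj`) and there is `L1` (`SB.ps`).  `SB.conj`: `d (g x g⁻¹) (θ g z) / d x z → 1`, i.e.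
`exp (L z - L1 (θ g z)) → 1`; take logarithms. -/
def StPC : Prop :=
  ∀ H : Set (ℝ → ℝ), Bas H → ∀ (Γ : Type) [Group Γ] (θ : Γ → ℝ → ℝ), SB H θ → ∀ (g x : Γ) (L : ℝ → ℝ),
    Ps H θ x L → ∃ L1 : ℝ → ℝ, Ps H θ (g * x * g⁻¹) L1 ∧
      Tendsto (fun z => L1 (θ g z) - L z) atTop (𝓝 0)

/-- SQ (the sequence of the conjugates of `f` by the powers of `g`).

PROOF.  Let `f n = g ^ n * f * (g ^ n)⁻¹`.  StPC for `g ^ n` and `f` with `L0` gives `L n` (choose) with `Ps H θ (f n) (L n)` and `L n (θ (g ^ n) z) - L0 z → 0`; `L 0 = L0` and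
`L 1 = L1` near `+∞` (`SB.psu`).  StPC for `g` and `f n` (`f (n+1) = g * f n * g⁻¹`) and `psu`: (1) `L (n+1) (θ g z) - L n z → 0`.  Claim (2): `L n - L (n+1) → +∞` for all `n`:
`n = 0` is the hypothesis; `(L (n+1) - L (n+2)) (θ g z) = L n z - L (n+1) z + o(1) → +∞`, and transport by `θ g` (`F = (F ∘ θ g) ∘ θ g⁻¹` near `+∞`).  For `i < j` add up.
Ratios: `q = L 1 / L 0 ∈ H` (near `+∞`) satisfies `0 ≤ q ≤ 1` near `+∞` by (2), so it has a limit `c ∈ [0, 1]` (`Bas.lim`).  Claim (3): `L (n+1) / L n → c`: by (1)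
`(L (n+2) / L (n+1)) (θ g z) = (L (n+1) z + o(1)) / (L n z + o(1))`, which has the same limit as `L (n+1) z / L n z` since `L n → +∞`; transport.  Multiply. -/
def StSQ : Prop :=
  StPC → ∀ H : Set (ℝ → ℝ), Bas H → ∀ (Γ : Type) [Group Γ] (θ : Γ → ℝ → ℝ), SB H θ →
    ∀ (f g : Γ) (L0 L1 : ℝ → ℝ), Ps H θ f L0 → Ps H θ (g * f * g⁻¹) L1 →
      Tendsto (fun x => L0 x - L1 x) atTop atTop →
      ∃ (L : ℕ → ℝ → ℝ) (c : ℝ), 0 ≤ c ∧ c ≤ 1 ∧ (∀ n, Ps H θ (g ^ n * f * (g ^ n)⁻¹) (L n)) ∧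
        (∀ n, Tendsto (fun z => L n (θ (g ^ n) z) - L 0 z) atTop (𝓝 0)) ∧
        (∀ i j, i < j → Tendsto (fun x => L i x - L j x) atTop atTop) ∧
        (∀ n, Tendsto (fun x => L n x / L 0 x) atTop (𝓝 (c ^ n)))

/-- XP (exponential gaps are impossible).

PROOF.  Facts: if `y → +∞` then `log^[p] y → +∞` and `exp^[p] (log^[p] y) = y` for large `y` (induction on `p`, `Function.iterate_succ_apply'`); `exp^[p]` is strictly increasing;
`exp^[q] x + 1 ≤ exp^[q] (x + 1)` for `x ≥ 0` (induction: `exp (x + 1) ≥ exp x + 1`; iterate with `exp^[q] x ≥ 0`).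
(1) By `HF.lev` there are `p, q` with `log^[p] (f (exp^[q] x)) - x → 0`.  So for large `x`: `exp^[p] (x - 1) ≤ f (exp^[q] x)` and `f (exp^[q] (x + 1)) ≤ exp^[p] (x + 2)`.  Suppose
`exp (f z) ≤ f (z + 1)` for all large `z`; let `z = exp^[q] x`; `f` is increasing near `+∞` (`Bas.mono`), so `exp (exp^[p] (x - 1)) ≤ exp (f z) ≤ f (z + 1) ≤ f (exp^[q] (x + 1)) ≤ exp^[p] (x + 2)`.
As `exp (exp^[p] (x-1)) = exp^[p] (exp (x-1))` and `exp^[p]` is strictly increasing, `exp (x - 1) ≤ x + 2`: false for large `x`.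
(2) If `K ≤ 0`: `log L0 → +∞`, `Ln - K log L0 ≥ Ln` near `+∞`.  Let `K > 0`, `F = Ln - K log L0 ∈ H`.  If `F` does not tend to `+∞` then `F ≤ C` near `+∞` for some
`C` (`Bas.lim`).  So for large `z`: `L0 z ≤ Ln (θ u z) + 1 ≤ K log (L0 (θ u z)) + C + 1`, i.e. `L0 (θ u z) ≥ E (L0 z)` with `E s = exp ((s - C - 1) / K)`.  Apply twice:
`L0 (θ (u * u) z) = L0 (θ u (θ u z)) ≥ E (L0 (θ u z)) ≥ E (E (L0 z)) ≥ exp (L0 z)` for large `z`, as `E (E s) ≥ exp s` for large `s` (`E s ≥ K s + C + 1` for large `s`).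
By smallness `θ (u * u) z ≤ z + 1`, and `L0` is increasing near `+∞`, so `exp (L0 z) ≤ L0 (z + 1)` for all large `z`, contradiction to (1). -/
def StXP : Prop :=
  (∀ H : Set (ℝ → ℝ), Bas H → ∀ f ∈ H, Tendsto f atTop atTop → ¬ ∀ᶠ z in atTop, Real.exp (f z) ≤ f (z + 1)) ∧
  ∀ H : Set (ℝ → ℝ), Bas H → ∀ (Γ : Type) [Group Γ] (θ : Γ → ℝ → ℝ), SB H θ → ∀ (u : Γ), ∀ L0 ∈ H, ∀ Ln ∈ H,
    Tendsto L0 atTop atTop → Tendsto Ln atTop atTop → Tendsto (fun z => Ln (θ u z) - L0 z) atTop (𝓝 0) →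
    ∀ K : ℝ, Tendsto (fun x => Ln x - K * Real.log (L0 x)) atTop atTop

/-- KN (the commutator of a large and a small element).

PROOF.  Near `+∞`: `P ≤ Q` (`c < 1`, `Q → +∞`), `0 < Q'`, and `Q' ≤ Q²` (the derivative `-Q'/Q²` of `1/Q → 0` tends to `0`), `0 < P' < c' Q'` with `c' = max c 0 < 1`
(`c Q - P → +∞` so `c Q' - P' > 0` by `Bas.dpos`).  Put `a = exp (-P z)`, `b = exp (-Q z) ≤ a`; `a (Q z)² = exp (-(P - 2 log Q)) → 0`.
By StLN, uniformly for `|ξ - z| ≤ a`: (i) `Q ξ - Q z → 0`; (ii) `log Q' ξ - log Q' z → 0` (StLN for `log Q' ∈ H`, `(log Q')² ≤ (2 log Q)² ≤ Q²` near `+∞`), so `Q' ξ / Q' z → 1`; (iii)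
`P ξ - P z → 0` (`P ≤ Q`).  Let `k = ⁅x, y⁆`, `w = θ y (θ x z)`.  As in StCM `θ k w = θ x (θ y z)` and
`d k w = [d x (z + b) - d x z] - [d y (z + a) - d y z]`, `d x = exp (-P)`, `d y = exp (-Q)` near `+∞`.  Mean value theorem: first bracket
`= -P' ξ₁ exp (-P ξ₁) b`, second bracket `= -Q' ξ₂ exp (-Q ξ₂) a`, with `ξ₁ ∈ (z, z + b)`, `ξ₂ ∈ (z, z + a)`.  Let `T z = Q' z exp (-(Q z + P z))`.  Then
`d k w / T z = -(P' ξ₁ / Q' z) exp (P z - P ξ₁) + (Q' ξ₂ / Q' z) exp (Q z - Q ξ₂)`; the second term tends to `1`, the first is `≤ 0` and `≥ -c' (Q' ξ₁ / Q' z) exp (P z - P ξ₁) ≥ -(c' + o(1))`.  So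
`(1 - c') / 2 ≤ d k w / T z ≤ 2` for large `z`.  In particular `Pos θ k` (transport by `θ (y * x)`), and there is `K` with `Ps H θ k K` (`SB.ps`), and
`|K w - (Q z + P z - log Q' z)| ≤ B₀` for large `z`, `w = θ y (θ x z)`.  Finally `K z - K w → 0`: `|w - z| ≤ a + exp (-Q (θ x z)) ≤ 2 a`, `K w ≤ 2 Q z + B₀` (`log Q' ≥ 0` near `+∞`), so
`|z - w| (K w)² ≤ 2 a (2 Q z + B₀)² → 0` and StLN for `K` at the base point `w` applies.  So `B = B₀ + 1`. -/
def StKN : Prop :=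
  StLN → ∀ H : Set (ℝ → ℝ), Bas H → ∀ (Γ : Type) [Group Γ] (θ : Γ → ℝ → ℝ), SB H θ →
    ∀ (x y : Γ) (P Q Q' : ℝ → ℝ) (c : ℝ), Ps H θ x P → Ps H θ y Q → c < 1 →
      Tendsto (fun z => c * Q z - P z) atTop atTop →
      Tendsto (fun z => P z - 2 * Real.log (Q z)) atTop atTop →
      (∀ᶠ z in atTop, HasDerivAt Q (Q' z) z) → Tendsto Q' atTop atTop →
      ∃ (K : ℝ → ℝ) (B : ℝ), Ps H θ ⁅x, y⁆ K ∧
        ∀ᶠ z in atTop, |K z - (Q z + P z - Real.log (Q' z))| ≤ B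

/-- NV (conjugation does not move the depth of `f` by an unbounded amount).

PROOF.  Let `L, c` be as in StSQ, `f n = g ^ n * f * (g ^ n)⁻¹`, `Q = L 0`, `Q'` its derivative (`Q' ∈ H`, `Q' > 0` near `+∞`).
(a) `Q' → +∞`: otherwise `Q' ≤ B` near `+∞` (`Bas.lim`), so `|Q (θ g z) - Q z| ≤ B |θ g z - z| → 0`; but `Q (θ g z) - Q z = (L 0 - L 1) (θ g z) + (L 1 (θ g z) - L 0 z) → +∞`.
(b) Case `c = 1`: StWN with `a i = f (r - i)`, the depths `L (r - i)`, `Λ = L r`, `δ = 1/2`, `C = 0`: `L (r-j) - L (r-i) → +∞` for `i < j ≤ r`; `L r ≤ L (r-i)` near `+∞`;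
`(3/2) L r - L (r-i) = L 0 * ((3/2) (L r / L 0) - L (r-i) / L 0)` and the bracket tends to `1/2`.
(c) Case `c < 1`.  For `1 ≤ n` apply StKN with `x = f n`, `y = f` (`Ps H θ f (L 0)` as `f 0 = f`), `P = L n`, `Q = L 0`, constant `(1 + c) / 2`: `((1+c)/2) Q - P = Q ((1+c)/2 - P/Q)`, `P/Q → c ^ n ≤ c < (1+c)/2`;
`P - 2 log Q → +∞` by StXP (2) with `u = g ^ n`.  So there are `K n`, `B n` with `Ps H θ ⁅f n, f⁆ (K n)` and
`|K n - (Q + L n - log Q')| ≤ B n` near `+∞`.  StWN with `a i = ⁅f (r+1-i), f⁆`, depths `M i = K (r+1-i)`, `Λ = K (r+1) = M 0`, `δ = (1-c)/2`, `C` = the sum of the `B n`, `n ≤ r+1`, times `2`: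
for `i < j ≤ r`: `M j - M i ≥ L (r+1-j) - L (r+1-i) - B - B → +∞`; `Λ - M i ≤ L (r+1) - L (r+1-i) + 2B ≤ C` near `+∞`; and
`(2-δ) Λ - M i ≥ (1-δ) (Q - log Q') + (2-δ) L (r+1) - L (r+1-i) - 3 B ≥ Q ((1-δ) (1 - 2 log Q / Q) - L (r+1-i) / Q) - 3 B`, as `log Q' ≤ 2 log Q` near `+∞`
(`Q' ≤ Q²`: the derivative `-Q'/Q²` of `1/Q → 0` tends to `0`).  The bracket tends to `(1-δ) - c ^ (r+1-i) ≥ 1 - δ - c = (1-c)/2 > 0`. -/
def StNV : Prop :=
  StLN → StDP → StCM → StWN → StPC → StSQ → StXP → StKN → ∀ H : Set (ℝ → ℝ), Bas H →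
    ∀ (Γ : Type) [Group Γ] (θ : Γ → ℝ → ℝ) (r : ℕ), SB H θ → SRank Γ r →
    ∀ (f g : Γ) (L0 L1 : ℝ → ℝ), Ps H θ f L0 → Ps H θ (g * f * g⁻¹) L1 →
      Tendsto (fun x => L0 x - L1 x) atTop atTop → False

/-- NM (conjugation multiplies the displacement asymptotically by a positive constant).  The first hypothesis `hNV` is the
conclusion of StNV for this action.

PROOF.  Let first `f` be positive: `Ps H θ f L0` and, by StPC, `Ps H θ (g f g⁻¹) L1` with (1) `L1 (θ g z) - L0 z → 0`.  `L0 - L1 ∈ H` has a limit in `[-∞, ∞]`.  It is not `+∞` by `hNV`.  It is not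
`-∞`: StPC for `g⁻¹` and `f`: `L2` with (2) `L2 (θ g⁻¹ w) - L0 w → 0`; put `w = θ g z`: `L2 z - L0 (θ g z) → 0` (`θ g⁻¹ (θ g z) = z` near `+∞`), so
`L0 z - L2 z = L1 (θ g z) - L0 (θ g z) + o(1) → +∞` if `L1 - L0 → +∞`, contradiction to `hNV` for `f, g⁻¹`.  So `L0 - L1 → κ` is finite and `d (g f g⁻¹) / d f = exp (L0 - L1) → exp κ`.
If `f` is not positive and not trivial then `f⁻¹` is positive (`RB.tri`), `(g f g⁻¹)⁻¹ = g f⁻¹ g⁻¹`, and `d h⁻¹ / d h → -1` for `h` not trivial (`SB.invd`; `d h ≠ 0` near `+∞`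
by `HF.sign`), for `h = f` and `h = g f g⁻¹`. -/
def StNM : Prop :=
  StPC → ∀ H : Set (ℝ → ℝ), Bas H → ∀ (Γ : Type) [Group Γ] (θ : Γ → ℝ → ℝ), SB H θ →
    (∀ (f g : Γ) (L0 L1 : ℝ → ℝ), Ps H θ f L0 → Ps H θ (g * f * g⁻¹) L1 →
      Tendsto (fun x => L0 x - L1 x) atTop atTop → False) →
    ∀ g f : Γ, ¬ Tr θ f → ∃ l : ℝ, 0 < l ∧
      Tendsto (fun z => dsp θ (g * f * g⁻¹) z / dsp θ f z) atTop (𝓝 l)

/-- LA (commutators do not scale).  The first hypothesis is the conclusion of StNM.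

PROOF.  Write `l (t, a)` for the limit of `d (t a t⁻¹) / d a` (`a` not trivial; then `t a t⁻¹` is not trivial, `RB.tconj`).  (1) If `a`, `b` are not trivial and `d b / d a → κ ≠ 0` then
`l (t, b) = l (t, a)`: by `SB.conj`, `d (t b t⁻¹) (θ t z) / d (t a t⁻¹) (θ t z) = d b z (1 + o(1)) / (d a z (1 + o(1))) → κ`; transport by `θ t`: `d (t b t⁻¹) / d (t a t⁻¹) → κ`; so
`d (t b t⁻¹) / d b = (d (t b t⁻¹) / d (t a t⁻¹)) (d (t a t⁻¹) / d a) (d a / d b) → κ l (t, a) / κ`.  (2) `l (s t, a) = l (s, a) l (t, a)`: with `b = t a t⁻¹`, `d b / d a → l (t, a) ≠ 0`,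
`d (s b s⁻¹) / d a = (d (s b s⁻¹) / d b) (d b / d a) → l (s, b) l (t, a) = l (s, a) l (t, a)`.  So for fixed `a` the map `t ↦ log l (t, a)` is a homomorphism from `Γ` to the additive group of the reals (`Γ →* Multiplicative ℝ`)
and vanishes on the commutator subgroup (`Abelianization.commutator_subset_ker`). -/
def StLA : Prop :=
  ∀ H : Set (ℝ → ℝ), Bas H → ∀ (Γ : Type) [Group Γ] (θ : Γ → ℝ → ℝ), SB H θ →
    (∀ g f : Γ, ¬ Tr θ f → ∃ l : ℝ, 0 < l ∧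
      Tendsto (fun z => dsp θ (g * f * g⁻¹) z / dsp θ f z) atTop (𝓝 l)) →
    ∀ t ∈ commutator Γ, ∀ a : Γ, ¬ Tr θ a →
      Tendsto (fun z => dsp θ (t * a * t⁻¹) z / dsp θ a z) atTop (𝓝 1)

/-- JP (the commutator subgroup has a nontrivial central element).  The first two hypotheses on `θ` are the conclusions of StNM
and StLA.

PROOF.  For `x ∈ Γ` let `C x = {g | d g = O(d x)}`, `D x = {g | d g = o(d x)}` (`SB.big`, `SB.lit`).  They are normal: `d (h g h⁻¹) = O(d g)` by the limit (for `g` trivial use `RB.tconj`).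
This gives `Jumps Γ` (Helper58.RK.Jumps): `nmem`: if `d x = o(d x)` then `d x = 0` near `+∞`, `x = 1`.  `cmpD`, `cmpC`: for nontrivial `x`, `y` the function `d x / d y ∈ H` has a limit in `[-∞, ∞]`
(`Bas.div`, `Bas.lim`); limit `0`: `d x = o(d y)`, so `C x ≤ D y`; finite nonzero: `d x = O(d y)`, `d y = O(d x)`; infinite: `d y = o(d x)`.  `tf`: let `a ^ n ∈ D x`, `n > 0`; if `a = 1` done; otherwise
`a` or `a⁻¹` is positive (`RB.tri`, `Fai`), call it `b`; `b ^ n ∈ D x`, `0 < d b ≤ d (b ^ n)` near `+∞` (`RB.pow`), so `b ∈ D x`.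
Centrality for `t ∈ commutator Γ`: `a ∈ C x` implies `⁅a, t⁆ ∈ D x`: `a = 1` clear.  Otherwise with `b = t a t⁻¹`: `d b - d a = o(d a)`, `⁅a, t⁆ = a b⁻¹`, and `d (a b⁻¹) = d a + d b⁻¹ + o(d b⁻¹)
= d a - d b + o(d b) = o(d a) = o(d x)` (`SB.add`, `SB.invd`, `d b = O(d a)`).  Let `K = commutator Γ` as a group; `Jumps.pull`, `Jumps.pull_central`, `SRank.pull` for the
inclusion and `central_thm`: `lowerCentralSeries (2 r)` of `K` is trivial.  `K` is not trivial; take the last nontrivial term of the lower central series of `K` and `z ≠ 1` in it. -/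
def StJP : Prop :=
  ∀ H : Set (ℝ → ℝ), Bas H → ∀ (Γ : Type) [Group Γ] (θ : Γ → ℝ → ℝ) (r : ℕ), SB H θ → Fai θ → SRank Γ r →
    (∀ g f : Γ, ¬ Tr θ f → ∃ l : ℝ, 0 < l ∧
      Tendsto (fun z => dsp θ (g * f * g⁻¹) z / dsp θ f z) atTop (𝓝 l)) →
    (∀ t ∈ commutator Γ, ∀ a : Γ, ¬ Tr θ a →
      Tendsto (fun z => dsp θ (t * a * t⁻¹) z / dsp θ a z) atTop (𝓝 1)) →
    (∃ u ∈ commutator Γ, u ≠ 1) →
    ∃ z ∈ commutator Γ, z ≠ 1 ∧ ∀ u ∈ commutator Γ, u * z = z * u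

/-- CO (an element commuting with the positive element `z` is bounded by a power of `z`).

PROOF.  If `u` is trivial or `u⁻¹` is positive then `θ u x ≤ x < θ z x` near `+∞` (`RB.trans` for `u⁻¹`; or `θ u (θ u⁻¹ x) = x < ...`), `N = 1`.  Let `u` be positive.  Let `x₀` be such that on `[x₀, ∞)`:
`θ z`, `θ u` are strictly increasing, `θ z` is continuous, `x < θ z x`, `x < θ u x`, `θ u (θ z x) = θ z (θ u x)` (both are `θ (u z) x = θ (z u) x`).  Let `s n = (θ z)^[n] x₀`: strictly increasing, `≥ x₀`, and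
unbounded (otherwise it converges to some `l ≥ x₀` and `θ z l = l` by continuity).  So `s n → +∞`, and there is `N` with `θ u (s 0) ≤ s N`.  By induction `θ u (s n) = (θ z)^[n] (θ u (s 0)) ≤ s (N + n)`.  Let
`x ≥ x₀`, `s n ≤ x < s (n+1)`: `θ u x ≤ θ u (s (n+1)) ≤ s (N+1+n) = (θ z)^[N+1] (s n) ≤ (θ z)^[N+1] x`, and `θ (z ^ (N+1)) x = (θ z)^[N+1] x` for large `x` (induction on `N`). -/
def StCO : Prop :=
  ∀ H : Set (ℝ → ℝ), Bas H → ∀ (Γ : Type) [Group Γ] (θ : Γ → ℝ → ℝ), RB H θ → ∀ u z : Γ, Pos θ z →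
    u * z = z * u → ∃ N : ℕ, ∀ᶠ x in atTop, θ u x ≤ θ (z ^ N) x

/-- CD (in a small action commuting with `z` implies displacement `O(d z)`).

PROOF.  `z⁻¹` commutes with `u`, and `d z⁻¹ = O(d z)` (`SB.invd`), so we may assume that `z` is positive (`RB.tri`); similarly (`SB.big` gives a subgroup, so `d u⁻¹ = O(d z)` implies `d u = O(d z)`)
that `u` is positive or trivial; trivial is clear.  By StCO `0 < d u ≤ d (z ^ N)` near `+∞`, and `d (z ^ N) = O(d z)` by `SB.big`. -/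
def StCD : Prop :=
  StCO → ∀ H : Set (ℝ → ℝ), Bas H → ∀ (Γ : Type) [Group Γ] (θ : Γ → ℝ → ℝ), SB H θ → ∀ u z : Γ, ¬ Tr θ z →
    u * z = z * u → dsp θ u =O[atTop] dsp θ z

/-- CE (commutators of elements with displacement `O(d w)` have displacement `o(d w)`).

PROOF.  If `w` is positive, `Ps H θ w L` (`SB.ps`), then `d x, d y = O(exp (-L))`, so StCM with `δ = 1/2` gives `d ⁅x, y⁆ = O(exp (-(3/2) L)) = o(exp (-L)) = o(d w)`.  If `w⁻¹` is positive: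
`d w⁻¹ = O(d w)`, `d w = O(d w⁻¹)` (`SB.invd`), apply the first case to `w⁻¹`. -/
def StCE : Prop :=
  StLN → StDP → StCM → ∀ H : Set (ℝ → ℝ), Bas H → ∀ (Γ : Type) [Group Γ] (θ : Γ → ℝ → ℝ), SB H θ → ∀ x y w : Γ,
    ¬ Tr θ w → dsp θ x =O[atTop] dsp θ w → dsp θ y =O[atTop] dsp θ w → dsp θ ⁅x, y⁆ =o[atTop] dsp θ w

/-- LC (calculus of levels; `Lvl f m n`: `log^[m] (f (exp^[n] x)) - x → 0`).

PROOF.  Facts: `exp^[n] → +∞`, and `exp^[n] (log^[n] y) = y` for large `y` (induction).  (1) `log^[m+1] (f (exp^[n+1] x)) - x = log (φ (exp x)) - x` with `φ x = log^[m] (f (exp^[n] x)) = x + o(1)`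
(`Function.iterate_succ_apply'` for `log`, `iterate_succ_apply` for `exp`), `= log (φ (exp x) / exp x) → log 1`.  (4) `exp^[n] → +∞`.  (2) By (1) `Lvl f (m+m') (n+m')`.  Let `G x = g (exp^[n'] x)`; `log^[m'] (G x) = x + o(1)`,
so `G x = exp^[m'] (x + e x)`, `e → 0`, for large `x`.  Put `x = exp^[n] y`: `G (exp^[n] y) = exp^[m'] (exp^[n] y + e) = exp^[m'] (exp^[n] (y + e'))` with `e' → 0` (if `t → +∞` and `e → 0` then `log (t + e) - log t → 0`; iterate `n` times).  So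
`log^[m+m'] (f (g (exp^[n+n'] y))) = φ (y + e')`, where `φ x = log^[m+m'] (f (exp^[n+m'] x)) = x + o(1)`, and `φ (y + e') - y → 0`.  (3) Raise both by (1) to the same `n`: so
`log^[a] F - x → 0` and `log^[a+k] F - x → 0` for the same `F`; if `k ≥ 1` then `log^[k] (x + o(1)) - x → 0`, but `log^[k] t ≤ t - 1` for large `t` (`log t ≤ t - 1`, `log^[k] t ≤ log t` for large `t`),
contradiction. -/
def StLC : Prop :=
  (∀ (f : ℝ → ℝ) (m n : ℕ), Lvl f m n → Lvl f (m + 1) (n + 1)) ∧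
  (∀ (f g : ℝ → ℝ) (m n m' n' : ℕ), Tendsto f atTop atTop → Tendsto g atTop atTop → Lvl f m n → Lvl g m' n' →
    Lvl (fun x => f (g x)) (m + m') (n + n')) ∧
  (∀ (f : ℝ → ℝ) (m n m' n' : ℕ), Tendsto f atTop atTop → Lvl f m n → Lvl f m' n' → m + n' = m' + n) ∧
  (∀ (f g : ℝ → ℝ) (m n : ℕ), (∀ᶠ x in atTop, f x = g x) → Lvl f m n → Lvl g m n)

/-- LB (levels of a group of germs).

PROOF.  `lv θ n g x - x` tends to `0` iff `Lvl (θ g) n n`.  `Rep H (lv θ n)` (for the whole group `Γ`, then restrict): `mem`: `exp^[n], log^[n] ∈ H` (induction, `HF.comp`), `θ g (exp^[n] x) → +∞`; `mul`: `exp^[n] (log^[n] y) = y` for large `y`; `one`: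
`log^[n] (exp^[n] x) = x`.  `Gn n = {g | Lvl (θ g) n n}` is a subgroup: `lv θ n (g h) x - x = (lv θ n g y - y) + (y - x)`, `y = lv θ n h x`; inverse: for `w = lv θ n g z`:
`lv θ n g⁻¹ w - w = z - lv θ n g z → 0`.  Monotone: StLC (1).  For every `g` there are `m, n` with `Lvl (θ g) m n` (`HF.lev`).  If `Lvl (θ g) m n` and `Lvl (θ g⁻¹) m' n'` then by StLC (2), (4) `Lvl id (m+m') (n+n')`, and `Lvl id 0 0`,
so `m + m' = n + n'` by (3).  Commutators `⁅a, b⁆ = a b a⁻¹ b⁻¹`: by (2) `Lvl _ M M` with the sum `M` of the four numbers.  Conjugates: `Lvl (θ (h g h⁻¹)) (m + n + m') (n₁ + n + n₁')` with `m + m' = n₁ + n₁'`, for all `g` with `Lvl (θ g) n n`, so the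
number `m + n + m'` does not depend on `g`.  Last item: if `log^[n] (θ g (exp^[n] x)) = x` for large `x` then `θ g (exp^[n] x) = exp^[n] x`, and every large `y` is `exp^[n] (log^[n] y)`. -/
def StLB : Prop :=
  StLC → ∀ H : Set (ℝ → ℝ), Bas H → ∀ (Γ : Type) [Group Γ] (θ : Γ → ℝ → ℝ), RB H θ →
    ∃ Gn : ℕ → Subgroup Γ, Monotone Gn ∧ (∀ a b : Γ, ∃ n, ⁅a, b⁆ ∈ Gn n) ∧
      (∀ (h : Γ) (n : ℕ), ∃ m, ∀ g ∈ Gn n, h * g * h⁻¹ ∈ Gn m) ∧
      ∀ n, Rep H (fun g : Gn n => lv θ n (g : Γ)) ∧ Sml (fun g : Gn n => lv θ n (g : Γ)) ∧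
        ∀ g : Gn n, Tr (fun g : Gn n => lv θ n (g : Γ)) g → Tr θ (g : Γ)

/-- SC (endomorphisms of an archimedean ordered group which preserve positivity commute; `P` is the set of positive elements).

PROOF.  `a < b` iff `P (b a⁻¹)` makes `Additive A` a linearly ordered commutative group, archimedean by the last hypothesis on `P`; let `ι : A → ℝ` be an injective homomorphism (to the additive group) with `0 < ι a ↔ P a`
(Hölder, `Archimedean.exists_orderAddMonoidHom_real_injective`; `Mathlib/Data/Real/Embedding.lean`).  If `P` is empty then `A` is trivial.  Let `P w`.  For `α` put `l = ι (α w) / ι w > 0`.  Claim: `ι (α a) = l ι a` for all `a`.  It suffices for `P a` (replace `a` by `a⁻¹`).  If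
`ι (α a) / ι (α w) < ι a / ι w`, choose natural numbers `p ≥ 0`, `q > 0` with `p/q` strictly between; then `q ι a - p ι w > 0`, so `P (a ^ q * (w ^ p)⁻¹)`, so `P (α (..))`, so
`q ι (α a) - p ι (α w) > 0`, contradiction.  Similarly for `>`.  With `ι (β a) = l' ι a`: `ι (α (β a)) = l l' ι a = ι (β (α a))`. -/
def StSC : Prop :=
  ∀ (A : Type) [CommGroup A] (P : A → Prop), ¬ P 1 → (∀ a b, P a → P b → P (a * b)) → (∀ a, a ≠ 1 → P a ∨ P a⁻¹) →
    (∀ a b, P b → ∃ n : ℕ, P (b ^ n * a⁻¹)) → ∀ α β : A →* A, (∀ a, P a → P (α a)) → (∀ a, P a → P (β a)) →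
    ∀ a, α (β a) = β (α a)

/-- OA (a normal abelian subgroup of a faithful group of germs is centralized by the commutator subgroup).

PROOF.  StSC for the group `A` (commutative), `P a = Pos θ a`: `P 1` is false (`RB.npos`, `one`); `pmul`; `RB.tri` with `Fai`; archimedean: for `P b` StCO gives `N` with `θ a ≤ θ (b ^ N)` near `+∞`, so
`θ (b ^ (N+1)) x = θ b (θ (b ^ N) x) > θ (b ^ N) x ≥ θ a x` and for `w = θ a x`: `θ (b ^ (N+1) * a⁻¹) w = θ (b ^ (N+1)) x > w`, so `Pos θ (b ^ (N+1) * a⁻¹)` (`trans`).  For `s ∈ Γ` conjugation `a ↦ s a s⁻¹` is an endomorphism of `A` which preserves `P`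
(`RB.pconj`).  So conjugations by `s` and `t` commute on `A`: `(s t) b (s t)⁻¹ = (t s) b (t s)⁻¹` for `b ∈ A`.  With `b = (t s)⁻¹ a (t s)`: `⁅s, t⁆ a ⁅s, t⁆⁻¹ = a` (`⁅s, t⁆ = (s t) (t s)⁻¹`).  So all commutators are in the centralizer of `A`
(`Subgroup.centralizer`, `Subgroup.commutator_le`). -/
def StOA : Prop :=
  StCO → StSC → ∀ H : Set (ℝ → ℝ), Bas H → ∀ (Γ : Type) [Group Γ] (θ : Γ → ℝ → ℝ), RB H θ → Fai θ →
    ∀ A : Subgroup Γ, A.Normal → (∀ a ∈ A, ∀ b ∈ A, a * b = b * a) → ∀ t ∈ commutator Γ, ∀ a ∈ A, t * a = a * t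

/-- QT (passing to a faithful action).

PROOF.  `N = {g | Tr θ g}` is a normal subgroup (`RB.tmul`, `tinv`, `tconj`, `one`).  `Γ₁ = Γ ⧸ N`, `π` the projection, `θ₁ q = θ (Quotient.out q)`.  If `g, h` have the same image then `h = g n`, `n ∈ N`, so `θ h x = θ g (θ n x) = θ g x` near `+∞`; this gives
`Rep H θ₁` and `Fai θ₁`.  `SRank`: a finitely generated subgroup `K` of `Γ₁` is the image of a finitely generated subgroup `K'` of `Γ` (lift generators); `K'` is generated by at most `r` elements, and their images generate `K`. -/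
def StQT : Prop :=
  ∀ H : Set (ℝ → ℝ), Bas H → ∀ (Γ : Type) [Group Γ] (θ : Γ → ℝ → ℝ) (r : ℕ), RB H θ → SRank Γ r →
    ∃ (Γ₁ : Type) (_ : Group Γ₁) (π : Γ →* Γ₁) (θ₁ : Γ₁ → ℝ → ℝ), Rep H θ₁ ∧ Fai θ₁ ∧ SRank Γ₁ r ∧
      ∀ g, π g = 1 → Tr θ g

end Pool.Agent.Helper80.HG
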