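import Pool.Agent.Helper80.HG.DefsL
import Mathlib

/-!
# Project HG (MP_1bacb5_al), part L: statements with complete proofs

GOAL: the logarithmico-exponential functions (`LE`) form a levelled Hardy field closed under composition (`HF {f | LE f}`), so
that the main theorem applies to them.  PLAN: (1) Liouville extensions of Hardy fields (`FR`, `EA`, `EB`), a maximal Hardy
field `M` is closed under `exp` and `log` (`ZN`).  (2) Every LE function lies in a finitely generated subfield of `M` closed under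
differentiation (`TW`, `GD`), which has only finitely many comparability classes, by transcendence degree (`AL`, `AD`, `IC`,
`CH`).  (3) In a Hardy field with finitely many classes `log` maps every class but the smallest one to a class (`RO`), so all
infinite elements have a level (`LV`).  All limits are at `+∞`.
-/

set_option autoImplicit false

namespace Pool.Agent.Helper80.HG

open Filter Topology

/-- HL (limits in a Hardy field; as in module HB of helper99, Pool/Agent/Helper99/HG/M_HB.lean).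

PROOF.  (1) The derivative `f' ∈ K` is eventually zero, positive or negative, so `f` is eventually constant, strictly increasing or strictly decreasing, so it has a limit in `[-∞, ∞]`.
(2) `f'` agrees near `+∞` with the derivative in `K`; if `f' = 0` or `f' < 0` near `+∞` then `f` is bounded above near `+∞`. -/
def StHL : Prop :=
  ∀ K : Set (ℝ → ℝ), HK K →
    (∀ f ∈ K, (∃ c : ℝ, Tendsto f atTop (𝓝 c)) ∨ Tendsto f atTop atTop ∨ Tendsto f atTop atBot) ∧
    ∀ f ∈ K, ∀ f' : ℝ → ℝ, Tendsto f atTop atTop → (∀ᶠ x in atTop, HasDerivAt f (f' x) x) →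
      ∀ᶠ x in atTop, 0 < f' x

/-- FR (field of fractions of a ring of germs with signs).

PROOF.  Let `F = {f | ∃ p ∈ R, ∃ q ∈ R, f = p / q near +∞}` (`p / 0 = 0`).  `R ⊆ F` (`q = 1`).  `mul`, `inv`: `(p/q) (p'/q') = (p p') / (q q')`, `(p/q)⁻¹ = q/p` hold also for zero denominators.  `add`: if `q = 0` near `+∞` then
`f = 0` near `+∞` and `f + g = g`; similarly `q' = 0`; otherwise `q, q'` have no zeros near `+∞` and `f + g = (p q' + p' q) / (q q')`.  `sign`: signs of `p` and `q`.  `deriv`: if `q = 0` near `+∞`: `f = 0` near `+∞`, derivative `0`.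
Otherwise `(p' q - p q') / (q q)` with the derivatives in `R` (`-1` is a constant; `f = p/q` on some `[a, ∞)`, so the derivative transfers on `(a, ∞)`). -/
def StFR : Prop :=
  ∀ R : Set (ℝ → ℝ), (∀ f ∈ R, ∀ g : ℝ → ℝ, (∀ᶠ x in atTop, f x = g x) → g ∈ R) →
    (∀ c : ℝ, (fun _ => c) ∈ R) → (∀ f ∈ R, ∀ g ∈ R, (fun x => f x + g x) ∈ R) →
    (∀ f ∈ R, ∀ g ∈ R, (fun x => f x * g x) ∈ R) →
    (∀ f ∈ R, (∀ᶠ x in atTop, f x = 0) ∨ (∀ᶠ x in atTop, 0 < f x) ∨ ∀ᶠ x in atTop, f x < 0) →
    (∀ f ∈ R, ∃ f' ∈ R, ∀ᶠ x in atTop, HasDerivAt f (f' x) x) →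
    ∃ F : Set (ℝ → ℝ), HK F ∧ R ⊆ F

/-- EA (adjoining a primitive).

PROOF.  Let `R` be the set of all `f` with `f x = ∑ i ∈ range n, a i x * y x ^ i` near `+∞` for some `n` and `a i ∈ K`.  Closed under sums (pad with zeros), products (distribute; each `a i * b j * y ^ (i+j)` is in `R`), derivatives: `(a y ^ i)' = a' y ^ i + i a s y ^ (i-1)`.
Signs, by induction on `n`: every `f = ∑ i < n, a i y ^ i` has a sign.  `n = 0`: zero.  `n + 1`: if `a n = 0` near `+∞`, induction.  Otherwise `g = f / a n = y ^ n + ∑ i < n, b i y ^ i`, `b i ∈ K`, and `g' = ∑ i < n, c i y ^ i` with `c i ∈ K`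
(`(y ^ n)' = n s y ^ (n-1)`, `(b i y ^ i)' = b i' y ^ i + i b i s y ^ (i-1)`).  By induction `g'` has a sign.  If `g' = 0` on `[a, ∞)`, `g` is constant there.  If `g' > 0` on `[a, ∞)`, `g` is strictly increasing there: either `g x₀ ≥ 0` for some `x₀ ≥ a` and `g > 0` after
`x₀`, or `g < 0` on `[a, ∞)`.  Similarly `g' < 0`.  So `g` and `f = a n * g` have signs.  Then StFR. -/
def StEA : Prop :=
  StFR → ∀ K : Set (ℝ → ℝ), HK K → ∀ y s : ℝ → ℝ, s ∈ K → (∀ᶠ x in atTop, HasDerivAt y (s x) x) →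
    ∃ K' : Set (ℝ → ℝ), HK K' ∧ K ⊆ K' ∧ y ∈ K'

/-- EB (adjoining an exponential of a primitive).

PROOF.  As StEA with the same `R`; `(a y ^ i)' = (a' + i s a) y ^ i`.  Signs, by induction on `n`: `f = ∑ i < n + 1, a i y ^ i`.  If `a 0 = 0` near `+∞` then `f = y * ∑ i < n, a (i+1) y ^ i` and `y > 0`.  Otherwise
`g = f / a 0 = 1 + ∑ 1 ≤ i ≤ n, b i y ^ i`, `g' = ∑ 1 ≤ i ≤ n, (b i' + i s b i) y ^ i = y * (n terms)` has a sign by induction, so `g` has a sign as in StEA. -/
def StEB : Prop :=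
  StFR → ∀ K : Set (ℝ → ℝ), HK K → ∀ y s : ℝ → ℝ, s ∈ K → (∀ᶠ x in atTop, 0 < y x) →
    (∀ᶠ x in atTop, HasDerivAt y (s x * y x) x) →
    ∃ K' : Set (ℝ → ℝ), HK K' ∧ K ⊆ K' ∧ y ∈ K'

/-- ZN (a maximal Hardy field is closed under exponentials and logarithms).

PROOF.  Zorn (`zorn_subset_nonempty`) for the sets `K` with `HK K`, starting from the eventually constant functions; the union of a nonempty chain is again `HK`.  Let `M` be maximal.  By maximality, StEA, StEB: if `s ∈ M` and `y' = s` then `y ∈ M`; if `y > 0`, `y' = s y` then `y ∈ M`.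
`id`: `s = 1`.  `exp`: `y = exp f`, `s = f'`.  `log`: if `f = 0` near `+∞` then `log f = 0` near `+∞`; otherwise `y = log f`, `s = f' / f` (`HasDerivAt.log`, `f ≠ 0` near `+∞` by `sign`). -/
def StZN : Prop := StFR → StEA → StEB → ∃ M : Set (ℝ → ℝ), HM M

/-- GD (a generated field is a Hardy field if it contains the derivatives of the generators).

PROOF.  `{f | Gn S f} ⊆ M` by induction; so `sign` holds.  `deriv` by induction on `Gn S f`: sum, product; inverse: if `f = 0` near `+∞` then `f⁻¹ = 0` near `+∞`, otherwise `-f' / f²`; congr: the derivative transfers (`f = g` on `(a, ∞)`). -/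
def StGD : Prop :=
  ∀ M : Set (ℝ → ℝ), HM M → ∀ S : Set (ℝ → ℝ), S ⊆ M →
    (∀ s ∈ S, ∃ s' : ℝ → ℝ, Gn S s' ∧ ∀ᶠ x in atTop, HasDerivAt s (s' x) x) →
    HK {f | Gn S f} ∧ {f | Gn S f} ⊆ M

/-- TW (every LE function lies in a finitely generated differential field).

PROOF.  Call a finite `S ⊆ M` with `x ∈ S` good if the derivatives of its elements are in `Gn S`.  `Gn` is monotone in `S` (induction), so unions of good sets are good.  Induction on `LE f`.  Constants, `x`: `S = {x}`.  Sum, product: union of the two sets.  Inverse, congr: the same set.  `exp f`: with `S` good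
for `f`, `S ∪ {exp f}`: `f` has a derivative `f' ∈ Gn S` near `+∞` (StGD), `(exp f)' = f' * exp f`.  `log f`: if `f = 0` near `+∞` (`HM.sign`, `f ∈ M` by StGD) then `log f = 0` near `+∞`; otherwise `S ∪ {log f}`, `(log f)' = f' * f⁻¹`. -/
def StTW : Prop :=
  StGD → ∀ M : Set (ℝ → ℝ), HM M → ∀ f : ℝ → ℝ, LE f →
    ∃ S : Finset (ℝ → ℝ), (S : Set (ℝ → ℝ)) ⊆ M ∧ (fun x => x) ∈ S ∧
      (∀ s ∈ S, ∃ s' : ℝ → ℝ, Gn (S : Set (ℝ → ℝ)) s' ∧ ∀ᶠ x in atTop, HasDerivAt s (s' x) x) ∧
      Gn (S : Set (ℝ → ℝ)) f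

/-- AL (transcendence degree; pure algebra).

PROOF.  Let `L = IntermediateField.adjoin ℝ S`.  `L` is algebraic over `Algebra.adjoin ℝ S`-fractions, so a subset of `S` is a transcendence basis of `L` over `ℝ` (`exists_isTranscendenceBasis_subset` or similar; or `Algebra.trdeg`), so every algebraically independent family in `L` has at most `S.card` elements
(`AlgebraicIndependent.lift_cardinalMk_le_trdeg` or similar).  So `g` is not algebraically independent. -/
def StAL : Prop :=
  ∀ (F : Type) [Field F] [Algebra ℝ F] (S : Finset F) (N : ℕ) (g : Fin (N + 1) → F), S.card ≤ N →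
    (∀ i, g i ∈ IntermediateField.adjoin ℝ (S : Set F)) →
    ∃ P : MvPolynomial (Fin (N + 1)) ℝ, P ≠ 0 ∧ MvPolynomial.aeval g P = 0

/-- AD (algebraic dependence in a finitely generated field of germs).

PROOF.  The germs (`Filter.Germ atTop ℝ`) of the functions in `M` form a subring; it is a field `F` (a nonzero germ of `M` is eventually nonzero by `sign`, its inverse is the germ of `f⁻¹`), an `ℝ`-algebra by the constants.  For `f` with `Gn S f` the germ of `f` is in `IntermediateField.adjoin ℝ` of the germs of `S`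
(induction; all `f` with `Gn S f` are in `M`).  StAL for the image of `S`.  The germ of `x ↦ MvPolynomial.eval (fun i => g i x) P` is `aeval` of `P` at the germs of the `g i`
(induction on `P`), so it is zero. -/
def StAD : Prop :=
  StAL → ∀ M : Set (ℝ → ℝ), HK M → ∀ S : Finset (ℝ → ℝ), (S : Set (ℝ → ℝ)) ⊆ M →
    ∀ g : Fin (S.card + 1) → ℝ → ℝ, (∀ i, Gn (S : Set (ℝ → ℝ)) (g i)) →
    ∃ P : MvPolynomial (Fin (S.card + 1)) ℝ, P ≠ 0 ∧
      ∀ᶠ x in atTop, MvPolynomial.eval (fun i => g i x) P = 0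

/-- IC (incomparable functions are algebraically independent).

PROOF.  `Big (g i) (g (i+1))` for all `i` gives `g j x ≤ g i x` and `(g j x) ^ k ≤ g i x` for all `k` and `i < j`, near `+∞` (compose).  Write `g^a = ∏ i, g i x ^ a i`.  Let `a` be the lexicographically largest element of `P.support` (first coordinate most significant).  For `b ≠ a` in the support let `j` be the first coordinate with
`a j ≠ b j`, so `b j < a j`.  With `D = ∑ i, b i`: `g^b ≤ (∏ i < j, g i ^ a i) * g j ^ (a j - 1) * ∏ i > j, g i ^ b i`, and `∏ i > j, g i ^ b i ≤ (g (j+1)) ^ D ≤ g j / g (j+1)` as `(g (j+1)) ^ (D+1) ≤ g j` (if `j` is the last index the product is empty).  So `g^b / g^a ≤ 1 / g (j+1)` or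
`≤ 1 / g j`, which tends to `0`.  So `P(g) / g^a → coeff a ≠ 0`. -/
def StIC : Prop :=
  ∀ (n : ℕ) (g : Fin (n + 1) → ℝ → ℝ), (∀ i, Tendsto (g i) atTop atTop) →
    (∀ i j : Fin (n + 1), i < j → Big (g i) (g j)) →
    ∀ P : MvPolynomial (Fin (n + 1)) ℝ, P ≠ 0 →
      ∀ᶠ x in atTop, MvPolynomial.eval (fun i => g i x) P ≠ 0

/-- CH (bound of the number of comparability classes).

PROOF.  Otherwise the functions `g 0, ..., g (S.card)` satisfy `Big (g i) (g j)` for `i < j` (`Big` is transitive for functions tending to `+∞`: `h ^ k ≤ g' ≤ g' ^ 1 ≤ g`), so by StIC no nonzero polynomial vanishes at them near `+∞`, contradiction to StAD. -/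
def StCH : Prop :=
  StAL → StAD → StIC → ∀ M : Set (ℝ → ℝ), HK M → ∀ S : Finset (ℝ → ℝ), (S : Set (ℝ → ℝ)) ⊆ M →
    ∀ g : ℕ → ℝ → ℝ, (∀ i ≤ S.card, Gn (S : Set (ℝ → ℝ)) (g i) ∧ Tendsto (g i) atTop atTop) →
    ¬ ∀ i < S.card, Big (g i) (g (i + 1))

/-- RO (the logarithm of an element outside the smallest class is comparable to an element).

PROOF.  Let `A = log g`, `B = log u ∈ M`, `A, B → +∞`, `A' = g'/g`, `B' = u'/u` positive near `+∞` (StHL), and `ρ = A' / B' ∈ K` (`K` is closed under derivatives and division).  `A ≥ k B` near `+∞` for all `k`.  (0) `ρ → +∞`: by StHL otherwise `ρ ≤ C` near `+∞`, `A' ≤ C B'`, so `C B - A` is nondecreasing near `+∞`,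
so `A ≤ C B + C'`, contradiction (`B → +∞`, `A ≥ (C + 1) B`).  (1) `A' = ρ B' ≤ (ρ B)'` near `+∞` as `ρ' > 0`, `B > 0`; so `A ≤ ρ B + C`; and `B ≤ u ≤ ρ ^ m` near `+∞` for some `m` by the hypothesis on `u` for `h = ρ`; so `A ≤ ρ ^ (m+2)` near `+∞`.  (2) `q = ρ / A² ∈ M` is positive; if its limit is not zero then
`q ≥ ε > 0` near `+∞`, `(-1/A)' = A'/A² ≥ ε B'`, so `-1/A - ε B` is nondecreasing, bounded below, so `B` is bounded, contradiction.  So `q → 0`, `ρ ≤ A²` near `+∞`.  Take `n = m + 2`. -/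
def StRO : Prop :=
  StHL → ∀ M : Set (ℝ → ℝ), HM M → ∀ K : Set (ℝ → ℝ), K ⊆ M → HK K → ∀ u ∈ K, Tendsto u atTop atTop →
    (∀ h ∈ K, Tendsto h atTop atTop → ∃ n : ℕ, ∀ᶠ x in atTop, u x ≤ h x ^ n) →
    ∀ g ∈ K, Tendsto g atTop atTop → Big g u →
      ∃ ρ ∈ K, Tendsto ρ atTop atTop ∧ Cmp ρ (fun x => Real.log (g x))

/-- LV (a Hardy field with finitely many comparability classes is levelled).

PROOF.  For `a, b ∈ K` tending to `+∞`: if not `∀ᶠ a ≤ b ^ n` then `b ^ n < a` near `+∞` (`sign` of `a - b ^ n`).  `Cmp` is symmetric and transitive for functions tending to `+∞`; `Cmp a b` implies `Cmp (log a) (log b)` (`log a ≤ k log b ≤ (log b)²` near `+∞`).  (i) There is `u ∈ K`, `u → +∞`, in the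
smallest class: for all `h ∈ K` with `h → +∞` there is `n` with `u ≤ h ^ n` near `+∞`.  Otherwise for every such `u` there is `h` with `Big u h`, and starting with `x` one gets a sequence contradicting `hN`.  (ii) For every `f ∈ K`, `f → +∞`, there is `i` with `Cmp (log^[i] f) u`.  Otherwise construct
`f_i ∈ K`, `f_i → +∞`, with `Cmp (log^[i] f) f_i` and `Big f_i f_(i+1)`: `f_0 = f`; given `f_i`: not `Cmp f_i u`, and `u ≤ f_i ^ n`, so `Big f_i u`; StRO gives `f_(i+1) = ρ` with `Cmp ρ (log f_i)`; `Big f_i ρ` as `ρ ^ k ≤ (log f_i) ^ (n k) ≤ f_i` near `+∞`.  Contradiction to `hN`.  (iii) By (ii) for `f` and for `x`: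
`Cmp (log^[i] f) (log^[j] x)`.  So `log^[i+1] f ≤ k log^[j+1] x` and conversely, so `|log^[i+2] f - log^[j+2] x| ≤ log k`, so `log^[i+3] f - log^[j+3] x → 0` (`|log a - log b| ≤ |a - b| / min a b`).  Compose with `exp^[j+3]`; `log^[j+3] (exp^[j+3] y) = y`.  (`log^[i] (f x) → +∞` for all `i`.) -/
def StLV : Prop :=
  StHL → StRO → ∀ M : Set (ℝ → ℝ), HM M → ∀ K : Set (ℝ → ℝ), K ⊆ M → HK K → (fun x => x) ∈ K → ∀ N : ℕ,
    (∀ g : ℕ → ℝ → ℝ, (∀ i ≤ N, g i ∈ K ∧ Tendsto (g i) atTop atTop) → ¬ ∀ i < N, Big (g i) (g (i + 1))) →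
    ∀ f ∈ K, Tendsto f atTop atTop → ∃ m n : ℕ,
      Tendsto (fun x => Real.log^[m] (f (Real.exp^[n] x)) - x) atTop (𝓝 0)

end Pool.Agent.Helper80.HG
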